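import Mathlib
import Pool.Agent.Pi2.Defs

/-! Function fields: finiteness over `K(z)`, the dimension bound. -/

universe u

namespace PiCurve

open Polynomial IntermediateField IntermediateField.algebraAdjoinAdjoin Module

variable {K : Type u} [Field K] {E : Type u} [Field E] [Algebra K E]

theorem trdeg_le_one (hF : IsFunctionField K E) : Algebra.trdeg K E ≤ 1 := by
  obtain ⟨t, ht, hfin⟩ := hF
  have h1 : Algebra.IsAlgebraic (IntermediateField.adjoin K {t}) E := inferInstance
  have h2 : Algebra.IsAlgebraic (Algebra.adjoin K {t}) E :=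
    (IsFractionRing.comap_isAlgebraic_iff (A := Algebra.adjoin K {t})
      (K := IntermediateField.adjoin K {t}) (C := E)).2 h1
  have h3 := Algebra.IsAlgebraic.trdeg_le_cardinalMk K ({t} : Set E)
  simpa using h3

theorem isAlgebraic_over_adjoin (hF : IsFunctionField K E) {z : E} (hz : Transcendental K z) :
    Algebra.IsAlgebraic (IntermediateField.adjoin K {z}) E := by
  have h1 : AlgebraicIndependent K (fun _ : Unit => z) :=
    (algebraicIndependent_unique_type_iff).2 hz
  have h2 : IsTranscendenceBasis K (fun _ : Unit => z) :=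
    h1.isTranscendenceBasis_of_lift_trdeg_le_of_finite (by simpa using trdeg_le_one hF)
  have h3 := h2.isAlgebraic_field
  have h4 : Set.range (fun _ : Unit => z) = {z} := by ext; simp [eq_comm]
  rw [h4] at h3
  exact h3

/-- A function field is finite over `K(z)` for every transcendental `z`. -/
theorem finiteDimensional_adjoin (hF : IsFunctionField K E) {z : E} (hz : Transcendental K z) :
    FiniteDimensional (IntermediateField.adjoin K {z}) E := by
  have halg := isAlgebraic_over_adjoin hF hz
  obtain ⟨t, ht, hfin⟩ := hF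
  set L := IntermediateField.adjoin K {z} with hL
  set L' := IntermediateField.adjoin K {t} with hL'
  have hint : IsIntegral L t := (halg.isAlgebraic t).isIntegral
  haveI : FiniteDimensional L L⟮t⟯ := IntermediateField.adjoin.finiteDimensional hint
  have hle : ∀ x ∈ L', x ∈ L⟮t⟯ := by
    intro x hx
    have h1 : L' ≤ (L⟮t⟯).restrictScalars K := by
      rw [hL']
      refine IntermediateField.adjoin_le_iff.2 ?_
      rintro _ rfl
      exact IntermediateField.mem_adjoin_simple_self L _
    exact h1 hx
  let φ : L' →+* L⟮t⟯ :=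
    { toFun := fun x => ⟨x, hle x x.2⟩
      map_one' := Subtype.ext (by simp)
      map_mul' := fun x y => Subtype.ext (by simp)
      map_zero' := Subtype.ext (by simp)
      map_add' := fun x y => Subtype.ext (by simp) }
  letI : Algebra L' L⟮t⟯ := φ.toAlgebra
  haveI : IsScalarTower L' L⟮t⟯ E := IsScalarTower.of_algebraMap_eq fun x => rfl
  haveI : Module.Finite L⟮t⟯ E := Module.Finite.of_restrictScalars_finite L' L⟮t⟯ E
  exact Module.Finite.trans L⟮t⟯ E

/-- `M/N` has dimension at most `d`, in terms of finite dimensional subspaces. -/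
def Bd (M N : Submodule K E) (d : ℕ) : Prop :=
  ∀ C : Submodule K E, FiniteDimensional K C → C ≤ M → C ⊓ N = ⊥ → finrank K C ≤ d

theorem Bd.finrank_le {M N : Submodule K E} {d : ℕ} (h : Bd M N d) {U : Submodule K E}
    [FiniteDimensional K U] (hU : U ≤ M) :
    finrank K U ≤ finrank K (U ⊓ N : Submodule K E) + d := by
  obtain ⟨C', hC'⟩ := Submodule.exists_isCompl ((U ⊓ N).comap U.subtype)
  set C := C'.map U.subtype with hC
  haveI : FiniteDimensional K C := Module.Finite.map _ _
  have h1 : C ≤ U := Submodule.map_subtype_le U C'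
  have h2 : C ⊓ N = ⊥ := by
    rw [eq_bot_iff]
    rintro x ⟨hx, hxN⟩
    obtain ⟨y, hy, rfl⟩ := hx
    have h3 : y ∈ ((U ⊓ N).comap U.subtype) ⊓ C' := ⟨⟨y.2, hxN⟩, hy⟩
    rw [hC'.inf_eq_bot] at h3
    have h4 : y = 0 := by simpa using h3
    simp [h4]
  have h3 := h C inferInstance (h1.trans hU) h2
  have h4 : finrank K ((U ⊓ N).comap U.subtype) + finrank K C' = finrank K U :=
    Submodule.finrank_add_eq_of_isCompl hC'
  have h5 : finrank K C = finrank K C' :=
    Submodule.finrank_map_subtype_eq U C'
  have h6 : finrank K ((U ⊓ N).comap U.subtype) = finrank K (U ⊓ N : Submodule K E) := by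
    have h7 : ((U ⊓ N).comap U.subtype).map U.subtype = U ⊓ N := by
      rw [Submodule.map_comap_subtype]
      simp
    rw [← Submodule.finrank_map_subtype_eq U, h7]
  omega

theorem Bd.trans {M B N : Submodule K E} {d e : ℕ} (h : Bd M B d) (h' : Bd B N e) :
    Bd M N (d + e) := by
  intro C hC hCM hCN
  have h1 := h.finrank_le hCM
  haveI : FiniteDimensional K (C ⊓ B : Submodule K E) :=
    Submodule.finiteDimensional_inf_left C B
  have h2 := h' (C ⊓ B) inferInstance inf_le_right (by
    rw [eq_bot_iff, ← hCN]
    exact inf_le_inf_right _ inf_le_left)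
  omega

theorem Bd.mono {M M' N N' : Submodule K E} {d d' : ℕ} (h : Bd M N d) (hM : M' ≤ M)
    (hN : N ≤ N') (hd : d ≤ d') : Bd M' N' d' := by
  intro C hC hCM hCN
  refine (h C hC (hCM.trans hM) ?_).trans hd
  rw [eq_bot_iff, ← hCN]
  exact inf_le_inf_left _ hN

end PiCurve
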