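import Mathlib
import Pool.Agent.Pi2.R.Dim

/-! The dimension bound `dim M/zM ≤ [E:K(z)]` for `K[z]`-submodules `M` of `E`. -/

universe u

namespace PiCurve

open Polynomial IntermediateField IntermediateField.algebraAdjoinAdjoin Module

variable {K : Type u} [Field K] {E : Type u} [Field E] [Algebra K E]

theorem aeval_mul_mem (M : Submodule K E) {z : E} (hzM : ∀ x ∈ M, z * x ∈ M) (q : K[X]) {x : E}
    (hx : x ∈ M) : aeval z q * x ∈ M := by
  induction q using Polynomial.induction_on' with
  | add p q hp hq => rw [map_add, add_mul]; exact M.add_mem hp hq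
  | monomial n a =>
    have h1 : z ^ n * x ∈ M := by
      induction n with
      | zero => simpa using hx
      | succ n ih => rw [pow_succ', mul_assoc]; exact hzM _ ih
    have h2 : aeval z (monomial n a) * x = a • (z ^ n * x) := by
      rw [aeval_monomial, Algebra.smul_def]; ring
    rw [h2]
    exact M.smul_mem _ h1

theorem poly_eq_zero (M : Submodule K E) {z : E} (hz0 : z ≠ 0) (hzM : ∀ x ∈ M, z * x ∈ M)
    {ι : Type*} [Fintype ι] (w : ι → E) (hw : ∀ i, w i ∈ M)
    (hind : ∀ c : ι → K, (∃ m ∈ M, ∑ i, c i • w i = z * m) → ∀ i, c i = 0) (d : ℕ) :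
    ∀ p : ι → K[X], (∀ i, (p i).natDegree < d) → ∑ i, aeval z (p i) * w i = 0 →
      ∀ i, p i = 0 := by
  induction d with
  | zero => intro p hp _ i; exact absurd (hp i) (by omega)
  | succ d ih =>
    intro p hp hsum
    have h1 : ∀ i, aeval z (p i) * w i = z * (aeval z (p i).divX * w i) +
        (p i).coeff 0 • w i := by
      intro i
      conv_lhs => rw [← Polynomial.divX_mul_X_add (p i)]
      rw [map_add, map_mul, aeval_X, aeval_C, Algebra.smul_def]
      ring
    rw [Finset.sum_congr rfl (fun i _ => h1 i), Finset.sum_add_distrib, ← Finset.mul_sum] at hsum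
    have h2 : ∀ i, (p i).coeff 0 = 0 := by
      refine hind _ ⟨-(∑ i, aeval z (p i).divX * w i), ?_, ?_⟩
      · exact M.neg_mem (M.sum_mem fun i _ => aeval_mul_mem M hzM _ (hw i))
      · rw [mul_neg]
        exact eq_neg_of_add_eq_zero_right hsum
    have h3 : ∑ i, aeval z (p i).divX * w i = 0 := by
      have h4 : ∑ i, (p i).coeff 0 • w i = 0 := by simp [h2]
      rw [h4, add_zero] at hsum
      exact (mul_eq_zero.1 hsum).resolve_left hz0
    rcases Nat.eq_zero_or_pos d with rfl | hd
    · intro i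
      have h5 := hp i
      rw [Polynomial.eq_C_of_natDegree_eq_zero (by omega : (p i).natDegree = 0), h2 i, C_0]
    · have h6 := ih (fun i => (p i).divX) (fun i => by
        rw [Polynomial.natDegree_divX_eq_natDegree_tsub_one]
        have := hp i
        omega) h3
      intro i
      rw [← Polynomial.divX_mul_X_add (p i), h6 i, h2 i]
      simp

theorem linearIndependent_adjoin (M : Submodule K E) {z : E} (hz : Transcendental K z)
    (hzM : ∀ x ∈ M, z * x ∈ M) {ι : Type*} [Fintype ι] (w : ι → E) (hw : ∀ i, w i ∈ M)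
    (hind : ∀ c : ι → K, (∃ m ∈ M, ∑ i, c i • w i = z * m) → ∀ i, c i = 0) :
    LinearIndependent (IntermediateField.adjoin K {z}) w := by
  have hz0 : z ≠ 0 := by
    rintro rfl
    exact hz isAlgebraic_zero
  rw [← LinearIndependent.iff_fractionRing (R := Algebra.adjoin K {z})
    (K := IntermediateField.adjoin K {z}), Fintype.linearIndependent_iff]
  intro g hg
  have h1 : ∀ i, ∃ p : K[X], aeval z p = (g i : E) := by
    intro i
    have h0 : (g i : E) ∈ Algebra.adjoin K {z} := (g i).2
    have h1 : ∀ y : E, y ∈ Algebra.adjoin K {z} → ∃ p : K[X], aeval z p = y := by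
      intro y hy
      rw [Algebra.adjoin_singleton_eq_range_aeval] at hy
      obtain ⟨p, hp⟩ := hy
      exact ⟨p, hp⟩
    exact h1 _ h0
  choose p hp using h1
  have h2 : ∀ i, p i = 0 := by
    refine poly_eq_zero M hz0 hzM w hw hind (∑ i, (p i).natDegree + 1) p (fun i => ?_) ?_
    · exact Nat.lt_succ_of_le (Finset.single_le_sum (f := fun i => (p i).natDegree)
        (fun _ _ => Nat.zero_le _) (Finset.mem_univ i))
    · rw [← hg]
      refine Finset.sum_congr rfl fun i _ => ?_
      rw [hp i]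
      rfl
  intro i
  apply Subtype.ext
  rw [← hp i, h2 i]
  simp

/-- multiplication by `z` -/
noncomputable def mulBy (z : E) : E →ₗ[K] E := LinearMap.mulLeft K z

theorem mem_map_mulBy {z : E} {M : Submodule K E} {x : E} :
    x ∈ M.map (mulBy (K := K) z) ↔ ∃ m ∈ M, x = z * m := by
  constructor
  · rintro ⟨m, hm, rfl⟩
    exact ⟨m, hm, rfl⟩
  · rintro ⟨m, hm, rfl⟩
    exact ⟨m, hm, rfl⟩

/-- The dimension bound. -/
theorem bd_mul (hF : IsFunctionField K E) (M : Submodule K E) {z : E} (hz : Transcendental K z)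
    (hzM : ∀ x ∈ M, z * x ∈ M) :
    Bd M (M.map (mulBy (K := K) z)) (finrank (IntermediateField.adjoin K {z}) E) := by
  intro C hC hCM hCN
  haveI := finiteDimensional_adjoin hF hz
  let b := Module.finBasis K C
  have h1 : LinearIndependent (IntermediateField.adjoin K {z}) (fun i => (b i : E)) := by
    refine linearIndependent_adjoin M hz hzM _ (fun i => hCM (b i).2) ?_
    rintro c ⟨m, hm, h⟩
    have h2 : ∑ i, c i • (b i : E) ∈ C ⊓ M.map (mulBy (K := K) z) :=
      ⟨C.sum_mem fun i _ => C.smul_mem _ (b i).2, mem_map_mulBy.2 ⟨m, hm, h⟩⟩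
    rw [hCN, Submodule.mem_bot] at h2
    have h3 : ∑ i, c i • b i = 0 := by
      apply Subtype.ext
      push_cast
      simpa using h2
    exact Fintype.linearIndependent_iff.1 b.linearIndependent c h3
  have h4 := h1.fintype_card_le_finrank
  simpa using h4

theorem mulBy_injective {z : E} (hz : z ≠ 0) : Function.Injective (mulBy (K := K) z) := by
  intro x y h
  exact mul_left_cancel₀ hz h

theorem Bd.map_mulBy {M N : Submodule K E} {d : ℕ} (h : Bd M N d) {z : E} (hz : z ≠ 0) :
    Bd (M.map (mulBy (K := K) z)) (N.map (mulBy (K := K) z)) d := by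
  intro C hC hCM hCN
  have h1 : (C.map (mulBy (K := K) z⁻¹)).map (mulBy (K := K) z) = C := by
    ext x
    rw [mem_map_mulBy]
    constructor
    · rintro ⟨m, hm, rfl⟩
      obtain ⟨c, hc, rfl⟩ := mem_map_mulBy.1 hm
      rw [← mul_assoc, mul_inv_cancel₀ hz, one_mul]
      exact hc
    · intro hx
      exact ⟨z⁻¹ * x, mem_map_mulBy.2 ⟨x, hx, rfl⟩, by rw [← mul_assoc, mul_inv_cancel₀ hz, one_mul]⟩
  haveI : FiniteDimensional K (C.map (mulBy (K := K) z⁻¹)) := Module.Finite.map _ _
  have h2 := h (C.map (mulBy (K := K) z⁻¹)) inferInstance (by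
    rintro x hx
    obtain ⟨c, hc, rfl⟩ := mem_map_mulBy.1 hx
    obtain ⟨m, hm, rfl⟩ := mem_map_mulBy.1 (hCM hc)
    rw [← mul_assoc, inv_mul_cancel₀ hz, one_mul]
    exact hm) (by
    rw [eq_bot_iff]
    rintro x ⟨hx, hxN⟩
    have h3 : z * x ∈ C ⊓ N.map (mulBy (K := K) z) := by
      refine ⟨?_, mem_map_mulBy.2 ⟨x, hxN, rfl⟩⟩
      obtain ⟨c, hc, rfl⟩ := mem_map_mulBy.1 hx
      rw [← mul_assoc, mul_inv_cancel₀ hz, one_mul]
      exact hc
    rw [hCN, Submodule.mem_bot] at h3
    exact (mul_eq_zero.1 h3).resolve_left hz)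
  have h3 : finrank K (C.map (mulBy (K := K) z⁻¹)) = finrank K C :=
    (LinearEquiv.finrank_eq (Submodule.equivMapOfInjective _
      (mulBy_injective (inv_ne_zero hz)) C)).symm
  omega

end PiCurve
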