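import Mathlib
import Pool.Agent.Pi2.R.Bound
import Pool.Agent.Helper10.Pi2.Const

/-! Places of a function field are discrete valuation rings; order functions. -/

universe u

namespace PiCurve

open Polynomial IntermediateField Module

variable {K : Type u} [Field K] {E : Type u} [Field E] [Algebra K E]

theorem transcendental_of_val_lt_one {V : ValuationSubring E} (hV : IsPlace K V) {z : E}
    (hz : z ≠ 0) (h : V.valuation z < 1) : Transcendental K z :=
  fun ha => hz (eq_zero_of_val_lt_one hV.1 ha h)

/-- a valuation ring over `K` as a subspace -/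
def subOf (V : ValuationSubring E) (hV : ∀ a : K, algebraMap K E a ∈ V) : Submodule K E where
  carrier := V
  zero_mem' := V.zero_mem
  add_mem' := fun {a b} ha hb => V.add_mem a b ha hb
  smul_mem' := fun c x hx => by
    rw [Algebra.smul_def]
    exact V.mul_mem _ _ (hV c) hx

@[simp] theorem mem_subOf {V : ValuationSubring E} {hV : ∀ a : K, algebraMap K E a ∈ V} {x : E} :
    x ∈ subOf V hV ↔ x ∈ V := Iff.rfl

/-- strictly increasing valuations above that of `z` are bounded in number -/
theorem chain_bound (hF : IsFunctionField K E) {V : ValuationSubring E} (hV : IsPlace K V)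
    {z : E} (hz : z ≠ 0) (hv : V.valuation z < 1) {n : ℕ} (w : Fin n → E)
    (hmono : StrictMono fun i => V.valuation (w i)) (hw : ∀ i, w i ∈ V)
    (hzw : ∀ i, V.valuation z < V.valuation (w i)) :
    n ≤ finrank (IntermediateField.adjoin K {z}) E := by
  have hzt := transcendental_of_val_lt_one hV hz hv
  haveI := finiteDimensional_adjoin hF hzt
  have hzV : z ∈ V := (V.valuation_le_one_iff z).1 hv.le
  have h1 : LinearIndependent (IntermediateField.adjoin K {z}) w := by
    refine linearIndependent_adjoin (subOf V hV.1) hzt (fun x hx => V.mul_mem _ _ hzV hx) w hw ?_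
    rintro c ⟨m, hm, h⟩
    classical
    by_contra hne
    push Not at hne
    have hne' : (Finset.univ.filter fun i => c i ≠ 0).Nonempty := by
      obtain ⟨i, hi⟩ := hne
      exact ⟨i, by simp [hi]⟩
    set i := (Finset.univ.filter fun i => c i ≠ 0).max' hne' with hi
    have hci : c i ≠ 0 := by
      have := Finset.max'_mem _ hne'
      rw [← hi] at this
      simpa using this
    have hval : ∀ j, c j ≠ 0 → V.valuation (c j • w j) = V.valuation (w j) := by
      intro j hj
      rw [Algebra.smul_def, map_mul, val_eq_one_of_isAlgebraic hV.1 (isAlgebraic_algebraMap _)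
        (by simpa using hj), one_mul]
    have hrest : V.valuation (∑ j ∈ Finset.univ.erase i, c j • w j) < V.valuation (c i • w i) := by
      refine V.valuation.map_sum_lt' ?_ ?_
      · rw [hval i hci]
        exact lt_of_le_of_lt zero_le (hzw i)
      · intro j hj
        rw [hval i hci]
        by_cases hcj : c j = 0
        · rw [hcj, zero_smul, map_zero]
          exact lt_of_le_of_lt zero_le (hzw i)
        · rw [hval j hcj]
          have h2 : j ≤ i := Finset.le_max' _ _ (by simp [hcj])
          exact hmono (lt_of_le_of_ne h2 (Finset.ne_of_mem_erase hj))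
    have hsum : ∑ j, c j • w j = ∑ j ∈ Finset.univ.erase i, c j • w j + c i • w i :=
      (Finset.sum_erase_add _ _ (Finset.mem_univ i)).symm
    have h3 : V.valuation (∑ j, c j • w j) = V.valuation (w i) := by
      rw [hsum, V.valuation.map_add_eq_of_lt_right hrest, hval i hci]
    have h4 : V.valuation (z * m) ≤ V.valuation z := by
      rw [map_mul]
      exact mul_le_of_le_one_right' ((V.valuation_le_one_iff m).2 hm)
    rw [← h, h3] at h4
    exact absurd h4 (not_le.2 (hzw i))
  simpa using h1.fintype_card_le_finrank

theorem isNoetherianRing_place (hF : IsFunctionField K E) {V : ValuationSubring E}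
    (hV : IsPlace K V) : IsNoetherianRing V := by
  rw [isNoetherianRing_iff, isNoetherian_iff', WellFoundedGT, isWellFounded_iff,
    RelEmbedding.wellFounded_iff_isEmpty]
  refine ⟨fun a => ?_⟩
  have hlt : ∀ n, a n < a (n + 1) := fun n => (RelEmbedding.map_rel_iff a).2 n.lt_succ_self
  have hex : ∀ n, ∃ x, x ∈ a (n + 1) ∧ x ∉ a n := fun n => SetLike.exists_of_lt (hlt n)
  choose w hw1 hw0 using hex
  have hstep : ∀ n, V.valuation (w n : E) < V.valuation (w (n + 1) : E) := by
    intro n
    by_contra hcon
    rw [not_lt, ValuationSubring.valuation_le_iff] at hcon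
    obtain ⟨b, hb⟩ := hcon
    apply hw0 (n + 1)
    have : w (n + 1) = b * w n := Subtype.ext (by rw [← hb]; rfl)
    rw [this]
    exact Ideal.mul_mem_left _ _ (hw1 n)
  have hmono : StrictMono fun n => V.valuation (w n : E) := strictMono_nat_of_lt_succ hstep
  have hz : (w 0 : E) ≠ 0 := by
    intro h0
    apply hw0 0
    have : w 0 = 0 := Subtype.ext h0
    rw [this]
    exact Ideal.zero_mem _
  have hv : V.valuation (w 0 : E) < 1 :=
    lt_of_lt_of_le (hstep 0) ((V.valuation_le_one_iff _).2 (w 1).2)
  have h := chain_bound hF hV hz hv (n := finrank (IntermediateField.adjoin K {(w 0 : E)}) E + 1)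
    (fun i => (w (i + 1) : E)) (fun i j hij => hmono (by simpa using hij)) (fun i => (w _).2)
    (fun i => hmono (Nat.succ_pos _))
  omega

theorem not_isField_place {V : ValuationSubring E} (hV : IsPlace K V) : ¬ IsField V := by
  intro h
  apply hV.2
  rw [eq_top_iff]
  intro x _
  rcases V.mem_or_inv_mem x with hx | hx
  · exact hx
  · by_cases h0 : x = 0
    · rw [h0]; exact V.zero_mem
    · obtain ⟨y, hy⟩ := h.mul_inv_cancel (a := (⟨x⁻¹, hx⟩ : V)) (by
        intro h1
        exact inv_ne_zero h0 (congrArg Subtype.val h1))
      have h2 : x⁻¹ * (y : E) = 1 := congrArg Subtype.val hy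
      have h3 : x = y := by
        have := congrArg (x * ·) h2
        simp only [mul_one] at this
        rw [← mul_assoc, mul_inv_cancel₀ h0, one_mul] at this
        exact this.symm
      rw [h3]
      exact y.2

theorem isDVR_place (hF : IsFunctionField K E) {V : ValuationSubring E} (hV : IsPlace K V) :
    IsDiscreteValuationRing V := by
  haveI := isNoetherianRing_place hF hV
  exact ((IsDiscreteValuationRing.TFAE V (not_isField_place hV)).out 0 1 rfl rfl).2 inferInstance

end PiCurve
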