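import Mathlib
import Pool.Agent.Pi2.R.Ord

/-! The order function of a place of a function field. -/

universe u

namespace PiCurve

open Polynomial IntermediateField Module

variable {K : Type u} [Field K] {E : Type u} [Field E] [Algebra K E]

/-- `π` is a uniformizer of the valuation ring `V`. -/
def IsUnif (V : ValuationSubring E) (π : E) : Prop :=
  π ≠ 0 ∧ V.valuation π < 1 ∧ ∀ f : E, f ≠ 0 → ∃ n : ℤ, V.valuation f = V.valuation π ^ n

theorem exists_isUnif (hF : IsFunctionField K E) {V : ValuationSubring E} (hV : IsPlace K V) :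
    ∃ π : E, IsUnif V π := by
  haveI := isDVR_place hF hV
  obtain ⟨ϖ, hϖ⟩ := IsDiscreteValuationRing.exists_irreducible V
  have h0 : (ϖ : E) ≠ 0 := by
    intro h
    exact hϖ.ne_zero (Subtype.ext h)
  have hmem : ∀ x : V, x ≠ 0 → ∃ n : ℕ, V.valuation (x : E) = V.valuation (ϖ : E) ^ n := by
    intro x hx
    obtain ⟨n, u, hu⟩ := IsDiscreteValuationRing.eq_unit_mul_pow_irreducible hx hϖ
    refine ⟨n, ?_⟩
    have h1 : (x : E) = (u : V) * (ϖ : E) ^ n := by
      rw [hu]
      push_cast
      rfl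
    rw [h1, map_mul, map_pow, V.valuation_unit, one_mul]
  refine ⟨ϖ, h0, ?_, ?_⟩
  · refine (V.valuation_lt_one_iff ϖ).1 ?_
    exact (IsLocalRing.mem_maximalIdeal _).2 hϖ.not_isUnit
  · intro f hf
    rcases V.mem_or_inv_mem f with h | h
    · obtain ⟨n, hn⟩ := hmem ⟨f, h⟩ (by
        intro h1
        exact hf (congrArg Subtype.val h1))
      exact ⟨n, by rw [zpow_natCast]; exact hn⟩
    · obtain ⟨n, hn⟩ := hmem ⟨f⁻¹, h⟩ (by
        intro h1
        exact inv_ne_zero hf (congrArg Subtype.val h1))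
      refine ⟨-n, ?_⟩
      simp only [map_inv₀] at hn
      rw [zpow_neg, zpow_natCast, ← hn, inv_inv]

open Classical in
/-- a uniformizer -/
noncomputable def unif (V : ValuationSubring E) : E :=
  if h : ∃ π : E, IsUnif V π then h.choose else 0

theorem isUnif_unif (hF : IsFunctionField K E) {V : ValuationSubring E} (hV : IsPlace K V) :
    IsUnif V (unif V) := by
  have h := exists_isUnif hF hV
  rw [unif, dif_pos h]
  exact h.choose_spec

open Classical in
/-- the order at `V` -/
noncomputable def ord (V : ValuationSubring E) (f : E) : ℤ :=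
  if h : ∃ n : ℤ, V.valuation f = V.valuation (unif V) ^ n then h.choose else 0

theorem val_eq_zpow (hF : IsFunctionField K E) {V : ValuationSubring E} (hV : IsPlace K V)
    {f : E} (hf : f ≠ 0) : V.valuation f = V.valuation (unif V) ^ ord V f := by
  have h := (isUnif_unif hF hV).2.2 f hf
  rw [ord, dif_pos h]
  exact h.choose_spec

section
variable (hF : IsFunctionField K E) {V : ValuationSubring E} (hV : IsPlace K V)
include hF hV

theorem val_unif_pos : 0 < V.valuation (unif V) :=
  zero_lt_iff.2 ((Valuation.ne_zero_iff _).2 (isUnif_unif hF hV).1)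

theorem val_le_val_iff {f g : E} (hf : f ≠ 0) (hg : g ≠ 0) :
    V.valuation f ≤ V.valuation g ↔ ord V g ≤ ord V f := by
  rw [val_eq_zpow hF hV hf, val_eq_zpow hF hV hg]
  exact (zpow_right_strictAnti₀ (val_unif_pos hF hV) (isUnif_unif hF hV).2.1).le_iff_ge

theorem val_lt_val_iff {f g : E} (hf : f ≠ 0) (hg : g ≠ 0) :
    V.valuation f < V.valuation g ↔ ord V g < ord V f := by
  rw [val_eq_zpow hF hV hf, val_eq_zpow hF hV hg]
  exact (zpow_right_strictAnti₀ (val_unif_pos hF hV) (isUnif_unif hF hV).2.1).lt_iff_gt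

theorem ord_eq_of_val {f : E} {n : ℤ} (h : V.valuation f = V.valuation (unif V) ^ n) :
    ord V f = n := by
  have hf : f ≠ 0 := by
    rintro rfl
    rw [map_zero] at h
    exact (zpow_pos (val_unif_pos hF hV) n).ne h
  rw [val_eq_zpow hF hV hf] at h
  exact (zpow_right_strictAnti₀ (val_unif_pos hF hV) (isUnif_unif hF hV).2.1).injective h

theorem ord_unif : ord V (unif V) = 1 := ord_eq_of_val hF hV (by rw [zpow_one])

theorem unif_ne_zero : unif V ≠ 0 := (isUnif_unif hF hV).1

theorem ord_one : ord V (1 : E) = 0 := ord_eq_of_val hF hV (by simp)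

theorem ord_mul {f g : E} (hf : f ≠ 0) (hg : g ≠ 0) : ord V (f * g) = ord V f + ord V g := by
  apply ord_eq_of_val hF hV
  rw [map_mul, val_eq_zpow hF hV hf, val_eq_zpow hF hV hg,
    zpow_add₀ (val_unif_pos hF hV).ne']

theorem ord_inv {f : E} (hf : f ≠ 0) : ord V f⁻¹ = - ord V f := by
  apply ord_eq_of_val hF hV
  rw [map_inv₀, val_eq_zpow hF hV hf, zpow_neg]

theorem ord_div {f g : E} (hf : f ≠ 0) (hg : g ≠ 0) : ord V (f / g) = ord V f - ord V g := by
  rw [div_eq_mul_inv, ord_mul hF hV hf (inv_ne_zero hg), ord_inv hF hV hg]; ring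

theorem ord_pow {f : E} (hf : f ≠ 0) (n : ℕ) : ord V (f ^ n) = n * ord V f := by
  apply ord_eq_of_val hF hV
  rw [map_pow, val_eq_zpow hF hV hf, ← zpow_natCast, ← zpow_mul, mul_comm]

theorem ord_neg (f : E) : ord V (-f) = ord V f := by
  by_cases hf : f = 0
  · rw [hf, neg_zero]
  · apply ord_eq_of_val hF hV
    rw [Valuation.map_neg, val_eq_zpow hF hV hf]

theorem mem_iff_ord {f : E} (hf : f ≠ 0) : f ∈ V ↔ 0 ≤ ord V f := by
  rw [← V.valuation_le_one_iff, ← map_one V.valuation, val_le_val_iff hF hV hf one_ne_zero,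
    ord_one hF hV]

theorem val_lt_one_iff_ord {f : E} (hf : f ≠ 0) : V.valuation f < 1 ↔ 0 < ord V f := by
  rw [← map_one V.valuation, val_lt_val_iff hF hV hf one_ne_zero, ord_one hF hV]

theorem ord_algebraMap {a : K} (ha : a ≠ 0) : ord V (algebraMap K E a) = 0 := by
  apply ord_eq_of_val hF hV
  rw [val_eq_one_of_isAlgebraic hV.1 (isAlgebraic_algebraMap a) (by simpa using ha), zpow_zero]

theorem le_ord_add {f g : E} {n : ℤ} (hf : f = 0 ∨ n ≤ ord V f) (hg : g = 0 ∨ n ≤ ord V g) :
    f + g = 0 ∨ n ≤ ord V (f + g) := by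
  rcases eq_or_ne f 0 with rfl | hf0
  · simpa using hg
  rcases eq_or_ne g 0 with rfl | hg0
  · simpa using hf
  rcases eq_or_ne (f + g) 0 with h | h
  · exact Or.inl h
  right
  have hf1 := hf.resolve_left hf0
  have hg1 := hg.resolve_left hg0
  by_contra hcon
  push Not at hcon
  have h1 : V.valuation f < V.valuation (f + g) := (val_lt_val_iff hF hV hf0 h).2 (by omega)
  have h2 : V.valuation g < V.valuation (f + g) := (val_lt_val_iff hF hV hg0 h).2 (by omega)
  exact absurd (V.valuation.map_add f g) (not_le.2 (max_lt h1 h2))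

theorem ord_add_eq {f g : E} (hf : f ≠ 0) (hg : g = 0 ∨ ord V f < ord V g) :
    f + g ≠ 0 ∧ ord V (f + g) = ord V f := by
  rcases eq_or_ne g 0 with rfl | hg0
  · simpa using hf
  have h1 : V.valuation g < V.valuation f := (val_lt_val_iff hF hV hg0 hf).2 (hg.resolve_left hg0)
  have h2 := V.valuation.map_add_eq_of_lt_left h1
  refine ⟨?_, ?_⟩
  · intro h
    rw [h, map_zero] at h2
    exact (Valuation.ne_zero_iff _).2 hf h2.symm
  · apply ord_eq_of_val hF hV
    rw [h2, val_eq_zpow hF hV hf]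

end

end PiCurve
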