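import Mathlib
import Pool.Agent.Pi2.R.Ord2

/-! Weak approximation for finitely many places; finiteness of zeros. -/

universe u

namespace PiCurve

open Polynomial IntermediateField Module

variable {K : Type u} [Field K] {E : Type u} [Field E] [Algebra K E]

open Classical in
/-- the absolute value of a place -/
noncomputable def absV (hF : IsFunctionField K E) {V : ValuationSubring E} (hV : IsPlace K V) :
    AbsoluteValue E ℝ where
  toFun f := if f = 0 then 0 else (2⁻¹ : ℝ) ^ ord V f
  map_mul' f g := by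
    by_cases hf : f = 0
    · simp [hf]
    by_cases hg : g = 0
    · simp [hg]
    have hfg : f * g ≠ 0 := mul_ne_zero hf hg
    simp only [hf, hg, hfg, if_false]
    rw [ord_mul hF hV hf hg, zpow_add₀ (by norm_num)]
  nonneg' f := by
    by_cases hf : f = 0
    · simp [hf]
    · simp only [hf, if_false]; positivity
  eq_zero' f := by
    by_cases hf : f = 0
    · simp [hf]
    · simp only [hf, if_false, iff_false]; positivity
  add_le' f g := by
    by_cases hf : f = 0
    · simp [hf]
    by_cases hg : g = 0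
    · simp [hg]
    by_cases hfg : f + g = 0
    · simp only [hfg, hf, hg, if_true, if_false]; positivity
    simp only [hf, hg, hfg, if_false]
    have h1 := (le_ord_add hF hV (n := min (ord V f) (ord V g)) (Or.inr (min_le_left _ _))
      (Or.inr (min_le_right _ _))).resolve_left hfg
    have h2 : (2⁻¹ : ℝ) ^ ord V (f + g) ≤ (2⁻¹ : ℝ) ^ min (ord V f) (ord V g) :=
      zpow_le_zpow_right_of_le_one₀ (by norm_num) (by norm_num) h1
    rcases min_cases (ord V f) (ord V g) with h | h
    · rw [h.1] at h2
      have : (0:ℝ) ≤ (2⁻¹ : ℝ) ^ ord V g := by positivity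
      linarith
    · rw [h.1] at h2
      have : (0:ℝ) ≤ (2⁻¹ : ℝ) ^ ord V f := by positivity
      linarith

open Classical in
theorem absV_apply (hF : IsFunctionField K E) {V : ValuationSubring E} (hV : IsPlace K V) {f : E}
    (hf : f ≠ 0) : absV hF hV f = (2⁻¹ : ℝ) ^ ord V f := by
  change (if f = 0 then (0:ℝ) else (2⁻¹ : ℝ) ^ ord V f) = _
  rw [if_neg hf]

theorem absV_le_one (hF : IsFunctionField K E) {V : ValuationSubring E} (hV : IsPlace K V) {f : E} :
    absV hF hV f ≤ 1 ↔ f ∈ V := by
  by_cases hf : f = 0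
  · simp [hf, V.zero_mem]
  · rw [absV_apply hF hV hf, mem_iff_ord hF hV hf,
      zpow_le_one_iff_right_of_lt_one₀ (by norm_num) (by norm_num)]

theorem absV_lt_one (hF : IsFunctionField K E) {V : ValuationSubring E} (hV : IsPlace K V) {f : E}
    (hf : f ≠ 0) : absV hF hV f < 1 ↔ 0 < ord V f := by
  rw [absV_apply hF hV hf, zpow_lt_one_iff_right_of_lt_one₀ (by norm_num) (by norm_num)]

theorem one_lt_absV (hF : IsFunctionField K E) {V : ValuationSubring E} (hV : IsPlace K V) {f : E}
    (hf : f ≠ 0) : 1 < absV hF hV f ↔ ord V f < 0 := by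
  rw [absV_apply hF hV hf, one_lt_zpow_iff_right_of_lt_one₀ (by norm_num) (by norm_num)]

theorem exists_separating (hF : IsFunctionField K E) (s : Finset (ValuationSubring E))
    (hs : ∀ V ∈ s, IsPlace K V) {W : ValuationSubring E} (hW : W ∈ s) :
    ∃ a : E, a ≠ 0 ∧ ord W a < 0 ∧ ∀ V ∈ s, V ≠ W → 0 < ord V a := by
  let v : s → AbsoluteValue E ℝ := fun V => absV hF (hs V.1 V.2)
  obtain ⟨a, ha1, ha2⟩ := AbsoluteValue.exists_one_lt_lt_one_pi_of_not_isEquiv (v := v)
    (fun V => by
      refine ⟨unif V.1, unif_ne_zero hF (hs V.1 V.2), ?_⟩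
      refine ne_of_lt ?_
      rw [absV_lt_one hF (hs V.1 V.2) (unif_ne_zero hF (hs V.1 V.2)), ord_unif hF (hs V.1 V.2)]
      norm_num)
    (fun V V' hne h => by
      apply hne
      apply Subtype.ext
      ext f
      rw [← absV_le_one hF (hs V.1 V.2), ← absV_le_one hF (hs V'.1 V'.2)]
      exact h.le_one_iff) ⟨W, hW⟩
  have ha : a ≠ 0 := by
    rintro rfl
    rw [map_zero] at ha1
    linarith
  refine ⟨a, ha, (one_lt_absV hF (hs W hW) ha).1 ha1, fun V hV hne => ?_⟩
  exact (absV_lt_one hF (hs V hV) ha).1 (ha2 ⟨V, hV⟩ (fun h => hne (congrArg Subtype.val h)))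

theorem exists_approx (hF : IsFunctionField K E) (s : Finset (ValuationSubring E))
    (hs : ∀ V ∈ s, IsPlace K V) {W : ValuationSubring E} (hW : W ∈ s) (N : ℕ) :
    ∃ e : E, e ≠ 0 ∧ ord W e = 0 ∧ ∀ V ∈ s, V ≠ W → (N : ℤ) ≤ ord V e := by
  obtain ⟨a, ha, h1, h2⟩ := exists_separating hF s hs hW
  have hW' := hs W hW
  have haN : a ^ (N + 1) ≠ 0 := pow_ne_zero _ ha
  have h3 : ord W (a ^ (N + 1)) < 0 := by
    rw [ord_pow hF hW' ha]
    exact mul_neg_of_pos_of_neg (by positivity) h1
  obtain ⟨h4, h5⟩ := ord_add_eq hF hW' haN (g := 1) (Or.inr (by rw [ord_one hF hW']; exact h3))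
  refine ⟨a ^ (N + 1) / (a ^ (N + 1) + 1), div_ne_zero haN h4, ?_, ?_⟩
  · rw [ord_div hF hW' haN h4, h5]; ring
  · intro V hV hne
    have hV' := hs V hV
    have h6 : (N : ℤ) + 1 ≤ ord V (a ^ (N + 1)) := by
      rw [ord_pow hF hV' ha]
      have := h2 V hV hne
      push_cast
      nlinarith
    obtain ⟨h7, h8⟩ := ord_add_eq hF hV' (f := (1:E)) (g := a ^ (N + 1)) one_ne_zero
      (Or.inr (by rw [ord_one hF hV']; omega))
    rw [add_comm] at h7 h8
    rw [ord_div hF hV' haN h4, h8, ord_one hF hV']
    omega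

/-- finitely many places have at most `[E:K(z)]` zeros of `z` -/
theorem card_zeros_le (hF : IsFunctionField K E) {z : E} (hz : Transcendental K z)
    (s : Finset (ValuationSubring E)) (hs : ∀ V ∈ s, IsPlace K V)
    (hzs : ∀ V ∈ s, V.valuation z < 1) :
    s.card ≤ finrank (IntermediateField.adjoin K {z}) E := by
  classical
  haveI := finiteDimensional_adjoin hF hz
  have h := fun W : s => exists_approx hF s hs W.2 1
  choose e he0 he1 he2 using h
  let M : Submodule K E := ⨅ V : s, subOf V.1 (hs V.1 V.2).1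
  have hM : ∀ x, x ∈ M ↔ ∀ V : s, x ∈ V.1 := by
    intro x
    simp [M, Submodule.mem_iInf]
  have h1 : LinearIndependent (IntermediateField.adjoin K {z}) e := by
    refine linearIndependent_adjoin M hz (fun x hx => ?_) e (fun W => ?_) ?_
    · rw [hM] at hx ⊢
      intro V
      exact V.1.mul_mem _ _ ((V.1.valuation_le_one_iff z).1 (hzs V.1 V.2).le) (hx V)
    · rw [hM]
      intro V
      rw [mem_iff_ord hF (hs V.1 V.2) (he0 W)]
      by_cases hVW : V = W
      · rw [hVW, he1]
      · have := he2 W V.1 V.2 (fun h => hVW (Subtype.ext h))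
        omega
    · rintro c ⟨m, hm, h⟩ W
      by_contra hcW
      have hval : ∀ V : s, V ≠ W → W.1.valuation (c V • e V) < 1 := by
        intro V hVW
        by_cases hcV : c V = 0
        · rw [hcV, zero_smul, map_zero]; exact zero_lt_one
        · rw [Algebra.smul_def, map_mul, val_eq_one_of_isAlgebraic (hs W.1 W.2).1
            (isAlgebraic_algebraMap _) (by simpa using hcV), one_mul,
            val_lt_one_iff_ord hF (hs W.1 W.2) (he0 V)]
          have := he2 V W.1 W.2 (fun h => hVW (Subtype.ext h.symm))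
          omega
      have hvalW : W.1.valuation (c W • e W) = 1 := by
        rw [Algebra.smul_def, map_mul, val_eq_one_of_isAlgebraic (hs W.1 W.2).1
            (isAlgebraic_algebraMap _) (by simpa using hcW), one_mul,
            val_eq_zpow hF (hs W.1 W.2) (he0 W), he1 W, zpow_zero]
      have hrest : W.1.valuation (∑ V ∈ Finset.univ.erase W, c V • e V) <
          W.1.valuation (c W • e W) := by
        rw [hvalW]
        refine W.1.valuation.map_sum_lt' zero_lt_one ?_
        intro V hV
        exact hval V (Finset.ne_of_mem_erase hV)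
      have hsum : ∑ V, c V • e V = ∑ V ∈ Finset.univ.erase W, c V • e V + c W • e W :=
        (Finset.sum_erase_add _ _ (Finset.mem_univ W)).symm
      have h3 : W.1.valuation (∑ V, c V • e V) = 1 := by
        rw [hsum, W.1.valuation.map_add_eq_of_lt_right hrest, hvalW]
      rw [h, map_mul] at h3
      have h4 : W.1.valuation m ≤ 1 := (W.1.valuation_le_one_iff m).2 ((hM m).1 hm W)
      have h5 : W.1.valuation z * W.1.valuation m < 1 :=
        lt_of_le_of_lt (mul_le_of_le_one_right' h4) (hzs W.1 W.2)
      exact h5.ne h3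
  simpa using h1.fintype_card_le_finrank

theorem finite_zeros (hF : IsFunctionField K E) {z : E} (hz : Transcendental K z) :
    {V : ValuationSubring E | IsPlace K V ∧ V.valuation z < 1}.Finite := by
  by_contra hinf
  rw [← Set.Infinite] at hinf
  obtain ⟨t, ht, hcard⟩ := hinf.exists_subset_card_eq
    (finrank (IntermediateField.adjoin K {z}) E + 1)
  have := card_zeros_le hF hz t (fun V hV => (ht hV).1) (fun V hV => (ht hV).2)
  omega

end PiCurve
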