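import Mathlib
import Pool.Agent.Pi2.R.Approx

/-! Riemann's inequality for the multiples of one place. -/

universe u

namespace PiCurve

open Polynomial IntermediateField IntermediateField.algebraAdjoinAdjoin Module

variable {K : Type u} [Field K] {E : Type u} [Field E] [Algebra K E]

theorem le_ord_smul (hF : IsFunctionField K E) {V : ValuationSubring E} (hV : IsPlace K V)
    {n : ℤ} (c : K) {f : E} (hf : f = 0 ∨ n ≤ ord V f) : c • f = 0 ∨ n ≤ ord V (c • f) := by
  rcases hf with rfl | hf
  · left; simp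
  by_cases hc : c = 0
  · left; simp [hc]
  by_cases hf0 : f = 0
  · left; simp [hf0]
  right
  rw [Algebra.smul_def, ord_mul hF hV (by simpa using hc) hf0, ord_algebraMap hF hV hc]
  omega

/-- functions with a pole of order at most `m` at `W`, regular at the other places of `P` -/
def poleSp (hF : IsFunctionField K E) {W : ValuationSubring E} (hW : IsPlace K W) (m : ℤ)
    (P : Set (ValuationSubring E)) (hP : ∀ V ∈ P, IsPlace K V) : Submodule K E where
  carrier := {f | (f = 0 ∨ -m ≤ ord W f) ∧ ∀ V ∈ P, V ≠ W → f ∈ V}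
  zero_mem' := ⟨Or.inl rfl, fun V _ _ => V.zero_mem⟩
  add_mem' := by
    rintro a b ⟨ha, ha'⟩ ⟨hb, hb'⟩
    exact ⟨le_ord_add hF hW ha hb, fun V hV hne => V.add_mem _ _ (ha' V hV hne) (hb' V hV hne)⟩
  smul_mem' := by
    rintro c a ⟨ha, ha'⟩
    exact ⟨le_ord_smul hF hW c ha, fun V hV hne => (subOf V (hP V hV).1).smul_mem c (ha' V hV hne)⟩

theorem mem_poleSp {hF : IsFunctionField K E} {W : ValuationSubring E} {hW : IsPlace K W} {m : ℤ}
    {P : Set (ValuationSubring E)} {hP : ∀ V ∈ P, IsPlace K V} {f : E} :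
    f ∈ poleSp hF hW m P hP ↔ (f = 0 ∨ -m ≤ ord W f) ∧ ∀ V ∈ P, V ≠ W → f ∈ V := Iff.rfl

/-- functions regular on a set of places -/
def regSp (P : Set (ValuationSubring E)) (hP : ∀ V ∈ P, IsPlace K V) : Submodule K E where
  carrier := {f | ∀ V ∈ P, f ∈ V}
  zero_mem' := fun V _ => V.zero_mem
  add_mem' := fun ha hb V hV => V.add_mem _ _ (ha V hV) (hb V hV)
  smul_mem' := fun c _ ha V hV => (subOf V (hP V hV).1).smul_mem c (ha V hV)

theorem mem_regSp {P : Set (ValuationSubring E)} {hP : ∀ V ∈ P, IsPlace K V} {f : E} :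
    f ∈ regSp P hP ↔ ∀ V ∈ P, f ∈ V := Iff.rfl

/-- zeros of `z` -/
def zeros (K : Type u) [Field K] {E : Type u} [Field E] [Algebra K E] (z : E) :
    Set (ValuationSubring E) := {V | IsPlace K V ∧ V.valuation z < 1}

theorem zeros_place {z : E} : ∀ V ∈ zeros K z, IsPlace K V := fun _ h => h.1

/-- `z^{-k} O` over `O` -/
theorem bd_pow (hF : IsFunctionField K E) {z : E} (hz : Transcendental K z) (k : ℕ) :
    Bd ((regSp (zeros K z) zeros_place).map (mulBy (K := K) ((z⁻¹) ^ k)))
      (regSp (zeros K z) zeros_place)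
      (k * finrank (IntermediateField.adjoin K {z}) E) := by
  have hz0 : z ≠ 0 := by
    rintro rfl
    exact hz isAlgebraic_zero
  induction k with
  | zero =>
    intro C hC hCM hCN
    have h1 : C ≤ regSp (zeros K z) zeros_place := by
      intro x hx
      obtain ⟨m, hm, rfl⟩ := mem_map_mulBy.1 (hCM hx)
      simpa using hm
    rw [inf_eq_left.2 h1] at hCN
    rw [hCN]
    simp
  | succ k ih =>
    have hM := bd_mul hF (regSp (zeros K z) zeros_place) hz (fun x hx V hV =>
      V.mul_mem _ _ ((V.valuation_le_one_iff z).1 hV.2.le) (hx V hV))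
    have h1 := hM.map_mulBy (z := (z⁻¹) ^ (k + 1)) (pow_ne_zero _ (inv_ne_zero hz0))
    have h2 : ((regSp (zeros K z) zeros_place).map (mulBy (K := K) z)).map
        (mulBy (K := K) ((z⁻¹) ^ (k + 1))) =
        (regSp (zeros K z) zeros_place).map (mulBy (K := K) ((z⁻¹) ^ k)) := by
      ext x
      constructor
      · intro hx
        obtain ⟨a, ha, rfl⟩ := mem_map_mulBy.1 hx
        obtain ⟨b, hb, rfl⟩ := mem_map_mulBy.1 ha
        refine mem_map_mulBy.2 ⟨b, hb, ?_⟩
        rw [pow_succ, ← mul_assoc, mul_assoc ((z⁻¹) ^ k), inv_mul_cancel₀ hz0, mul_one]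
      · intro hx
        obtain ⟨b, hb, rfl⟩ := mem_map_mulBy.1 hx
        refine mem_map_mulBy.2 ⟨z * b, mem_map_mulBy.2 ⟨b, hb, rfl⟩, ?_⟩
        rw [pow_succ, ← mul_assoc, mul_assoc ((z⁻¹) ^ k), inv_mul_cancel₀ hz0, mul_one]
    rw [h2] at h1
    exact (h1.trans ih).mono le_rfl le_rfl (by ring_nf; rfl)

/-- a function with a simple pole at `W` and no other pole among the zeros of `z`. -/
theorem exists_simple_pole (hF : IsFunctionField K E) {W : ValuationSubring E}
    (hW : IsPlace K W) :
    ∃ g : E, g ≠ 0 ∧ ord W g = -1 ∧ ∀ V ∈ zeros K (unif W), V ≠ W → g ∈ V := by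
  have hz0 := unif_ne_zero hF hW
  have hv := (isUnif_unif hF hW).2.1
  have hfin := finite_zeros hF (transcendental_of_val_lt_one hW hz0 hv)
  let s := hfin.toFinset
  have hs : ∀ V ∈ s, IsPlace K V := fun V hV => (hfin.mem_toFinset.1 hV).1
  have hWs : W ∈ s := hfin.mem_toFinset.2 ⟨hW, hv⟩
  obtain ⟨e, he0, he1, he2⟩ := exists_approx hF s hs hWs (∑ V ∈ s, (ord V (unif W)).natAbs)
  refine ⟨e / unif W, div_ne_zero he0 hz0, ?_, ?_⟩
  · rw [ord_div hF hW he0 hz0, he1, ord_unif hF hW]; norm_num
  · intro V hV hne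
    have hVs : V ∈ s := hfin.mem_toFinset.2 hV
    rw [mem_iff_ord hF hV.1 (div_ne_zero he0 hz0), ord_div hF hV.1 he0 hz0]
    have h1 := he2 V hVs hne
    have h2 : (ord V (unif W)).natAbs ≤ ∑ V ∈ s, (ord V (unif W)).natAbs :=
      Finset.single_le_sum (f := fun V => (ord V (unif W)).natAbs) (fun _ _ => Nat.zero_le _) hVs
    omega

theorem ord_ge_one {z : E} (hF : IsFunctionField K E) (hz0 : z ≠ 0) {V : ValuationSubring E}
    (hV : V ∈ zeros K z) : 1 ≤ ord V z :=
  (val_lt_one_iff_ord hF hV.1 hz0).1 hV.2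

/-- independence of powers with distinct orders -/
theorem sum_pow_ord (hF : IsFunctionField K E) {W : ValuationSubring E} (hW : IsPlace K W) {g : E}
    (hg : g ≠ 0) (hgW : ord W g = -1) (m : ℕ) (c : ℕ → K)
    (h : (∑ j ∈ Finset.range m, c j • g ^ (j + 1)) ∈ W) : ∀ j < m, c j = 0 := by
  induction m with
  | zero => intro j hj; omega
  | succ m ih =>
    have hsum : ∀ l : ℕ, (∑ j ∈ Finset.range l, c j • g ^ (j + 1)) = 0 ∨
        -(l : ℤ) ≤ ord W (∑ j ∈ Finset.range l, c j • g ^ (j + 1)) := by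
      intro l
      induction l with
      | zero => left; simp
      | succ l ihl =>
        rw [Finset.sum_range_succ]
        apply le_ord_add hF hW
        · rcases ihl with h1 | h1
          · exact Or.inl h1
          · right; push_cast; omega
        · apply le_ord_smul hF hW
          right
          rw [ord_pow hF hW hg, hgW]
          push_cast; omega
    have hcm : c m = 0 := by
      by_contra hc
      have hne : c m • g ^ (m + 1) ≠ 0 := smul_ne_zero hc (pow_ne_zero _ hg)
      have hord : ord W (c m • g ^ (m + 1)) = -((m : ℤ) + 1) := by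
        rw [Algebra.smul_def, ord_mul hF hW (by simpa using hc) (pow_ne_zero _ hg),
          ord_algebraMap hF hW hc, ord_pow hF hW hg, hgW]
        push_cast; ring
      obtain ⟨h1, h2⟩ := ord_add_eq hF hW hne
        (g := ∑ j ∈ Finset.range m, c j • g ^ (j + 1)) (by
          rcases hsum m with h3 | h3
          · exact Or.inl h3
          · right; omega)
      rw [Finset.sum_range_succ, add_comm] at h
      rw [mem_iff_ord hF hW h1, h2, hord] at h
      omega
    rw [Finset.sum_range_succ, hcm, zero_smul, add_zero] at h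
    intro j hj
    rcases Nat.lt_succ_iff_lt_or_eq.1 hj with h1 | h1
    · exact ih h j h1
    · rw [h1]; exact hcm

end PiCurve
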