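import Mathlib
import Pool.Agent.Pi2.R.Riemann

/-! Riemann's inequality for the multiples of one place, part 2. -/

universe u

namespace PiCurve

open Polynomial IntermediateField IntermediateField.algebraAdjoinAdjoin Module

variable {K : Type u} [Field K] {E : Type u} [Field E] [Algebra K E]

theorem finrank_add_le (hF : IsFunctionField K E) {W : ValuationSubring E} (hW : IsPlace K W)
    (m : ℕ) (C : Submodule K E) [FiniteDimensional K C]
    (hC : C ≤ (regSp (zeros K (unif W)) zeros_place).map (mulBy (K := K) ((unif W)⁻¹ ^ m)))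
    (hCJ : C ⊓ poleSp hF hW m (zeros K (unif W)) zeros_place = ⊥) :
    finrank K C + m ≤ m * finrank (IntermediateField.adjoin K {unif W}) E := by
  obtain ⟨g, hg0, hgW, hgV⟩ := exists_simple_pole hF hW
  have hz0 := unif_ne_zero hF hW
  have hv := (isUnif_unif hF hW).2.1
  have hzt := transcendental_of_val_lt_one hW hz0 hv
  set P := zeros K (unif W) with hP
  have hWP : W ∈ P := ⟨hW, hv⟩
  set G : Submodule K E := Submodule.span K (Set.range fun j : Fin m => g ^ ((j : ℕ) + 1)) with hG
  have hGrep : ∀ y ∈ G, ∃ c : ℕ → K, y = ∑ j ∈ Finset.range m, c j • g ^ (j + 1) := by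
    intro y hy
    rw [hG, Submodule.mem_span_range_iff_exists_fun] at hy
    obtain ⟨c, hc⟩ := hy
    refine ⟨fun j => if h : j < m then c ⟨j, h⟩ else 0, ?_⟩
    rw [← hc, Finset.sum_range]
    refine Finset.sum_congr rfl fun j _ => ?_
    simp
  have hind : LinearIndependent K (fun j : Fin m => g ^ ((j : ℕ) + 1)) := by
    rw [Fintype.linearIndependent_iff]
    intro c hc j
    have h1 := sum_pow_ord hF hW hg0 hgW m (fun j => if h : j < m then c ⟨j, h⟩ else 0) (by
      rw [Finset.sum_range]
      have : ∑ i : Fin m, (if h : (i : ℕ) < m then c ⟨i, h⟩ else 0) • g ^ ((i : ℕ) + 1) = 0 := by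
        rw [← hc]
        refine Finset.sum_congr rfl fun j _ => ?_
        simp
      rw [this]
      exact W.zero_mem) j j.2
    simpa using h1
  have hGfin : finrank K G = m := by
    rw [hG, finrank_span_eq_card hind]; simp
  haveI : FiniteDimensional K G := FiniteDimensional.span_of_finite K (Set.finite_range _)
  have hGJ : G ≤ poleSp hF hW m P zeros_place := by
    rw [hG, Submodule.span_le]
    rintro _ ⟨j, rfl⟩
    refine ⟨Or.inr ?_, ?_⟩
    · change -(m : ℤ) ≤ ord W (g ^ ((j : ℕ) + 1))
      rw [ord_pow hF hW hg0, hgW]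
      have := j.2
      push_cast
      omega
    · intro V hV hne
      exact pow_mem (hgV V hV hne) _
  have hOJ : regSp P zeros_place ≤ poleSp hF hW m P zeros_place := by
    intro x hx
    refine ⟨?_, fun V hV _ => hx V hV⟩
    by_cases hx0 : x = 0
    · exact Or.inl hx0
    · right
      have := (mem_iff_ord hF hW hx0).1 (hx W hWP)
      omega
  have hGZ : G ≤ (regSp P zeros_place).map (mulBy (K := K) ((unif W)⁻¹ ^ m)) := by
    rw [hG, Submodule.span_le]
    rintro _ ⟨j, rfl⟩
    refine mem_map_mulBy.2 ⟨unif W ^ m * g ^ ((j : ℕ) + 1), ?_, ?_⟩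
    · intro V hV
      by_cases hne : V = W
      · rw [hne, mem_iff_ord hF hW (mul_ne_zero (pow_ne_zero _ hz0) (pow_ne_zero _ hg0)),
          ord_mul hF hW (pow_ne_zero _ hz0) (pow_ne_zero _ hg0), ord_pow hF hW hz0,
          ord_pow hF hW hg0, hgW, ord_unif hF hW]
        have := j.2
        push_cast
        omega
      · exact V.mul_mem _ _ (pow_mem ((V.valuation_le_one_iff _).1 hV.2.le) _)
          (pow_mem (hgV V hV hne) _)
    · rw [← mul_assoc, ← mul_pow, inv_mul_cancel₀ hz0, one_pow, one_mul]
  haveI : FiniteDimensional K (C ⊔ G : Submodule K E) := Submodule.finiteDimensional_sup C G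
  have h1 := bd_pow hF hzt m (C ⊔ G) inferInstance (sup_le hC hGZ) (by
    rw [eq_bot_iff]
    rintro x ⟨hx, hxO⟩
    obtain ⟨c, hc, y, hy, rfl⟩ := Submodule.mem_sup.1 hx
    have hc0 : c = 0 := by
      have h2 : c ∈ poleSp hF hW m P zeros_place := by
        have h3 : c = (c + y) - y := by ring
        rw [h3]
        exact Submodule.sub_mem _ (hOJ hxO) (hGJ hy)
      have h3 : c ∈ C ⊓ poleSp hF hW m P zeros_place := ⟨hc, h2⟩
      rw [hCJ] at h3
      exact (Submodule.mem_bot K).1 h3
    rw [hc0, zero_add] at hxO ⊢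
    obtain ⟨d, hd⟩ := hGrep y hy
    have h4 := sum_pow_ord hF hW hg0 hgW m d (by rw [← hd]; exact hxO W hWP)
    rw [Submodule.mem_bot, hd]
    refine Finset.sum_eq_zero fun j hj => ?_
    rw [h4 j (Finset.mem_range.1 hj), zero_smul])
  have h2 := Submodule.finrank_sup_add_finrank_inf_eq C G
  have h3 : C ⊓ G = ⊥ := by
    rw [eq_bot_iff, ← hCJ]
    exact inf_le_inf_left _ hGJ
  rw [h3, finrank_bot, hGfin] at h2
  omega

theorem linearIndependent_pow_of_transcendental {L : Type*} [Field L] [Algebra K L] {t : L}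
    (ht : Transcendental K t) (r : ℕ) : LinearIndependent K (fun j : Fin r => t ^ (j : ℕ)) := by
  rw [Fintype.linearIndependent_iff]
  intro c hc j
  have h1 : aeval t (∑ i : Fin r, C (c i) * X ^ (i : ℕ)) = 0 := by
    rw [map_sum, ← hc]
    refine Finset.sum_congr rfl fun i _ => ?_
    rw [map_mul, aeval_C, map_pow, aeval_X, Algebra.smul_def]
  have h2 : (∑ i : Fin r, C (c i) * X ^ (i : ℕ) : K[X]) = 0 := by
    by_contra hne
    exact ht ⟨_, hne, h1⟩
  have h3 := congrArg (fun p : K[X] => p.coeff j) h2
  simp only [Polynomial.finsetSum_coeff, Polynomial.coeff_C_mul, Polynomial.coeff_X_pow,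
    coeff_zero] at h3
  rw [Finset.sum_eq_single j] at h3
  · simpa using h3
  · intro i _ hij
    rw [if_neg (fun h => hij (Fin.ext h.symm)), mul_zero]
  · intro h; exact absurd (Finset.mem_univ _) h

/-- a basis over `K(z)` consisting of functions regular at all places where `1/z` is regular -/
theorem exists_regular_family (hF : IsFunctionField K E) {z : E} (hz : Transcendental K z) :
    ∃ b : Fin (finrank (IntermediateField.adjoin K {z}) E) → E,
      LinearIndependent (IntermediateField.adjoin K {z}) b ∧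
      ∀ i, ∀ V : ValuationSubring E, IsPlace K V → z⁻¹ ∈ V → b i ∈ V := by
  haveI := finiteDimensional_adjoin hF hz
  have hz0 : z ≠ 0 := by
    rintro rfl
    exact hz isAlgebraic_zero
  have hzi : Transcendental K z⁻¹ := fun h => hz (by simpa using h.inv)
  have halg := isAlgebraic_over_adjoin hF hzi
  have halg' : Algebra.IsAlgebraic (Algebra.adjoin K {z⁻¹}) E :=
    (IsFractionRing.comap_isAlgebraic_iff (A := Algebra.adjoin K {z⁻¹})
      (K := IntermediateField.adjoin K {z⁻¹}) (C := E)).2 halg
  let b := Module.finBasis (IntermediateField.adjoin K {z}) E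
  have h1 : ∀ i, ∃ y : Algebra.adjoin K {z⁻¹}, y ≠ 0 ∧
      IsIntegral (Algebra.adjoin K {z⁻¹}) (y • b i) := fun i =>
    (halg'.isAlgebraic (b i)).exists_integral_multiple
  choose y hy0 hy using h1
  have hmem : ∀ i, (y i : E) ∈ IntermediateField.adjoin K {z} := by
    intro i
    have h2 : Algebra.adjoin K {z⁻¹} ≤ (IntermediateField.adjoin K {z}).toSubalgebra := by
      rw [Algebra.adjoin_le_iff]
      rintro _ rfl
      exact (IntermediateField.adjoin K {z}).inv_mem (IntermediateField.mem_adjoin_simple_self K z)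
    exact h2 (y i).2
  have hu : ∀ i, (⟨(y i : E), hmem i⟩ : IntermediateField.adjoin K {z}) ≠ 0 := by
    intro i h
    apply hy0 i
    apply Subtype.ext
    have h' : ((⟨(y i : E), hmem i⟩ : IntermediateField.adjoin K {z}) : E) = 0 := by
      rw [h]; rfl
    exact h'
  refine ⟨fun i => (y i : E) * b i, ?_, ?_⟩
  · have h3 := b.linearIndependent.units_smul (fun i => Units.mk0 _ (hu i))
    convert h3 using 1
    funext i
    rfl
  · intro i V hV hzV
    have h4 : Algebra.adjoin K {z⁻¹} ≤ (⟨V.toSubring.toSubsemiring, hV.1⟩ : Subalgebra K E) := by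
      rw [Algebra.adjoin_le_iff]
      rintro _ rfl
      exact hzV
    obtain ⟨p, hp, hpe⟩ := hy i
    let j : Algebra.adjoin K {z⁻¹} →+* V :=
      (algebraMap (Algebra.adjoin K {z⁻¹}) E).codRestrict V.toSubring (fun x => h4 x.2)
    have h5 : IsIntegral V ((y i : E) * b i) := by
      refine ⟨p.map j, hp.map j, ?_⟩
      rw [eval₂_map]
      exact hpe
    obtain ⟨x, hx⟩ := IsIntegrallyClosed.algebraMap_eq_of_integral (R := V) (K := E) h5
    change (y i : E) * b i ∈ V
    rw [← hx]
    exact x.2

end PiCurve
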