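import Mathlib
import Pool.Agent.Pi2.R.Riemann2

/-! Riemann's inequality for the multiples of one place, part 3. -/

universe u

namespace PiCurve

open Polynomial IntermediateField Module

variable {K : Type u} [Field K] {E : Type u} [Field E] [Algebra K E]

theorem riemann (hF : IsFunctionField K E) {W : ValuationSubring E} (hW : IsPlace K W) :
    ∃ c : ℕ, ∀ m : ℕ, ∃ U : Submodule K E, FiniteDimensional K U ∧
      U ≤ poleSp hF hW m {V | IsPlace K V} (fun _ h => h) ∧ m ≤ finrank K U + c := by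
  have hz0 := unif_ne_zero hF hW
  have hv := (isUnif_unif hF hW).2.1
  have hzt := transcendental_of_val_lt_one hW hz0 hv
  haveI := finiteDimensional_adjoin hF hzt
  set z := unif W with hz
  set n := finrank (IntermediateField.adjoin K {z}) E with hn
  obtain ⟨b, hb, hbV⟩ := exists_regular_family hF hzt
  have hfin := finite_zeros hF hzt
  let s := hfin.toFinset
  let k0 := ∑ i, ∑ V ∈ s, (ord V (b i)).natAbs
  have hb0 : ∀ i, b i ≠ 0 := fun i => hb.ne_zero i
  have hk0 : ∀ i, ∀ V ∈ zeros K z, -(k0 : ℤ) ≤ ord V (b i) := by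
    intro i V hV
    have hVs : V ∈ s := hfin.mem_toFinset.2 hV
    have h1 : (ord V (b i)).natAbs ≤ ∑ V ∈ s, (ord V (b i)).natAbs :=
      Finset.single_le_sum (f := fun V => (ord V (b i)).natAbs) (fun _ _ => Nat.zero_le _) hVs
    have h2 : ∑ V ∈ s, (ord V (b i)).natAbs ≤ k0 :=
      Finset.single_le_sum (f := fun i => ∑ V ∈ s, (ord V (b i)).natAbs)
        (fun _ _ => Nat.zero_le _) (Finset.mem_univ i)
    omega
  refine ⟨k0 * n + k0, fun m => ?_⟩
  rcases lt_or_ge m k0 with hm | hm
  · exact ⟨⊥, inferInstance, bot_le, by simp; omega⟩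
  obtain ⟨r, rfl⟩ := Nat.exists_eq_add_of_le hm
  -- the family `z^{-j} b_i`
  have hgen : Transcendental K ((⟨z, IntermediateField.mem_adjoin_simple_self K z⟩ :
      IntermediateField.adjoin K {z})⁻¹) := by
    intro h
    have h1 := h.inv
    rw [inv_inv] at h1
    exact hzt ((isAlgebraic_algebraMap_iff (algebraMap (IntermediateField.adjoin K {z}) E).injective
      ).2 h1)
  have hind := linearIndependent_smul (linearIndependent_pow_of_transcendental hgen r) hb
  set fam : Fin r × Fin n → E := fun p => ((⟨z, IntermediateField.mem_adjoin_simple_self K z⟩ :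
      IntermediateField.adjoin K {z})⁻¹) ^ (p.1 : ℕ) • b p.2 with hfam
  have hfam' : ∀ p, fam p = (z⁻¹) ^ (p.1 : ℕ) * b p.2 := fun p => rfl
  let U := Submodule.span K (Set.range fam)
  haveI : FiniteDimensional K U := FiniteDimensional.span_of_finite K (Set.finite_range _)
  have hUfin : finrank K U = r * n := by
    change finrank K (Submodule.span K (Set.range fam)) = r * n
    rw [finrank_span_eq_card hind, Fintype.card_prod, Fintype.card_fin, Fintype.card_fin]
  -- U consists of functions regular where `1/z` is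
  have hUB : ∀ x ∈ U, ∀ V : ValuationSubring E, IsPlace K V → z⁻¹ ∈ V → x ∈ V := by
    intro x hx V hV hzV
    have h1 : U ≤ subOf V hV.1 := by
      refine Submodule.span_le.2 ?_
      rintro _ ⟨p, rfl⟩
      rw [hfam' p]
      exact V.mul_mem _ _ (pow_mem hzV _) (hbV p.2 V hV hzV)
    exact h1 hx
  have hUZ : U ≤ (regSp (zeros K z) zeros_place).map (mulBy (K := K) (z⁻¹ ^ (k0 + r))) := by
    refine Submodule.span_le.2 ?_
    rintro _ ⟨p, rfl⟩
    refine mem_map_mulBy.2 ⟨z ^ (k0 + r) * fam p, ?_, ?_⟩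
    · intro V hV
      have h1 : z ^ (k0 + r) * fam p = z ^ (k0 + r - (p.1 : ℕ)) * b p.2 := by
        rw [hfam' p, ← mul_assoc]
        congr 1
        have h2 : k0 + r = (k0 + r - (p.1 : ℕ)) + (p.1 : ℕ) := by
          have := p.1.2; omega
        conv_lhs => rw [h2, pow_add, mul_assoc, ← mul_pow, mul_inv_cancel₀ hz0, one_pow, mul_one]
      rw [h1, mem_iff_ord hF hV.1 (mul_ne_zero (pow_ne_zero _ hz0) (hb0 _)),
        ord_mul hF hV.1 (pow_ne_zero _ hz0) (hb0 _), ord_pow hF hV.1 hz0]
      have h2 := ord_ge_one hF hz0 hV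
      have h3 := hk0 p.2 V hV
      have h4 : (k0 : ℤ) ≤ ((k0 + r - (p.1 : ℕ) : ℕ) : ℤ) := by
        have := p.1.2
        omega
      nlinarith
    · rw [← mul_assoc, ← mul_pow, inv_mul_cancel₀ hz0, one_pow, one_mul]
  have hBd : ∀ C : Submodule K E, FiniteDimensional K C →
      C ≤ (regSp (zeros K z) zeros_place).map (mulBy (K := K) (z⁻¹ ^ (k0 + r))) →
      C ⊓ poleSp hF hW ((k0 + r : ℕ) : ℤ) (zeros K z) zeros_place = ⊥ →
      finrank K C + (k0 + r) ≤ (k0 + r) * n := fun C hC h1 h2 =>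
    finrank_add_le hF hW (k0 + r) C h1 h2
  refine ⟨U ⊓ poleSp hF hW ((k0 + r : ℕ) : ℤ) (zeros K z) zeros_place,
    Submodule.finiteDimensional_inf_left _ _, ?_, ?_⟩
  · rintro x ⟨hxU, hx1, hx2⟩
    refine ⟨hx1, fun V hV hne => ?_⟩
    by_cases h1 : z⁻¹ ∈ V
    · exact hUB x hxU V hV h1
    · refine hx2 V ⟨hV, ?_⟩ hne
      rw [← V.valuation_le_one_iff, not_le, map_inv₀] at h1
      have h2 : V.valuation z ≠ 0 := (Valuation.ne_zero_iff _).2 hz0
      exact (one_lt_inv₀ (zero_lt_iff.2 h2)).1 h1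
  · have hle : k0 + r ≤ (k0 + r) * n := by
      have := hBd ⊥ inferInstance bot_le (by simp)
      simpa using this
    have h2 : Bd ((regSp (zeros K z) zeros_place).map (mulBy (K := K) (z⁻¹ ^ (k0 + r))))
        (poleSp hF hW ((k0 + r : ℕ) : ℤ) (zeros K z) zeros_place) ((k0 + r) * n - (k0 + r)) := by
      intro C hC hC1 hC2
      have := hBd C hC hC1 hC2
      omega
    have h3 := h2.finrank_le hUZ
    rw [hUfin] at h3
    have h4 : (k0 + r) * n = k0 * n + r * n := by ring
    omega

end PiCurve
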