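import Mathlib
import Pool.Agent.Pi2.R.Riemann3

/-! The algebra of functions regular outside one rational place. -/

universe u

namespace PiCurve

open Polynomial IntermediateField Module

variable (K : Type u) [Field K] {E : Type u} [Field E] [Algebra K E]

/-- functions regular outside `W` -/
def outAlg (W : ValuationSubring E) : Subalgebra K E where
  carrier := {f | ∀ V : ValuationSubring E, IsPlace K V → V ≠ W → f ∈ V}
  mul_mem' := fun ha hb V hV hne => V.mul_mem _ _ (ha V hV hne) (hb V hV hne)
  one_mem' := fun V _ _ => V.one_mem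
  add_mem' := fun ha hb V hV hne => V.add_mem _ _ (ha V hV hne) (hb V hV hne)
  zero_mem' := fun V _ _ => V.zero_mem
  algebraMap_mem' := fun a _ hV _ => hV.1 a

variable {K}

theorem mem_outAlg {W : ValuationSubring E} {f : E} :
    f ∈ outAlg K W ↔ ∀ V : ValuationSubring E, IsPlace K V → V ≠ W → f ∈ V := Iff.rfl

/-- a transcendental function has a pole -/
theorem exists_pole {g : E} (hg : Transcendental K g) :
    ∃ V : ValuationSubring E, IsPlace K V ∧ g ∉ V := by
  have hg0 : g ≠ 0 := by
    rintro rfl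
    exact hg isAlgebraic_zero
  let R : Subring E := (Algebra.adjoin K {g⁻¹}).toSubring
  have hmem : g⁻¹ ∈ R := Algebra.subset_adjoin (Set.mem_singleton _)
  let I : Ideal R := Ideal.span {⟨g⁻¹, hmem⟩}
  have hI : I ≠ ⊤ := by
    intro h
    rw [Ideal.eq_top_iff_one, Ideal.mem_span_singleton] at h
    obtain ⟨y, hy⟩ := h
    have h1 : (1 : E) = g⁻¹ * (y : E) := congrArg Subtype.val hy
    have h2 : (y : E) = g := by
      have h3 := congrArg (g * ·) h1
      simp only [mul_one] at h3
      rw [← mul_assoc, mul_inv_cancel₀ hg0, one_mul] at h3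
      exact h3.symm
    have h3 : (y : E) ∈ Algebra.adjoin K {g⁻¹} := y.2
    rw [h2, Algebra.adjoin_singleton_eq_range_aeval] at h3
    obtain ⟨p, hp⟩ := h3
    have h4 : aeval g⁻¹ (X * p - 1 : K[X]) = 0 := by
      rw [map_sub, map_mul, aeval_X, map_one]
      change g⁻¹ * (aeval g⁻¹).toRingHom p - 1 = 0
      rw [hp, inv_mul_cancel₀ hg0, sub_self]
    have h5 : Transcendental K g⁻¹ := fun h => hg (by simpa using h.inv)
    apply h5
    refine ⟨X * p - 1, ?_, h4⟩
    intro h6
    have h7 := congrArg (fun q : K[X] => q.coeff 0) h6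
    simp at h7
  obtain ⟨V, hV1, hV2⟩ := I.image_subset_nonunits_valuationSubring hI
  have h1 : g⁻¹ ∈ V.nonunits := hV2 ⟨⟨g⁻¹, hmem⟩, Ideal.subset_span rfl, rfl⟩
  have h2 : V.valuation g⁻¹ < 1 := (ValuationSubring.mem_nonunits_iff V).1 h1
  have h3 : g ∉ V := by
    rw [← V.valuation_le_one_iff, not_le]
    rw [map_inv₀] at h2
    exact (inv_lt_one₀ (zero_lt_iff.2 ((Valuation.ne_zero_iff _).2 hg0))).1 h2
  refine ⟨V, ⟨fun a => hV1 ?_, ?_⟩, h3⟩
  · exact Subalgebra.algebraMap_mem _ a
  · rintro rfl
    exact h3 (ValuationSubring.mem_top _)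

section

variable (hF : IsFunctionField K E) {W : ValuationSubring E} (hr : IsRational K W)
include hr

/-- a function regular everywhere is constant -/
theorem const_of_regular {f : E} (hf : f ∈ outAlg K W) (hfW : f ∈ W) :
    ∃ a : K, f = algebraMap K E a := by
  obtain ⟨a, g, hg, hv⟩ := hr.2 f hfW
  refine ⟨a, ?_⟩
  by_contra hne
  have hg0 : g ≠ 0 := by rw [← hg]; exact sub_ne_zero.2 hne
  obtain ⟨V, hV, hgV⟩ := exists_pole (transcendental_of_val_lt_one hr.1 hg0 hv)
  apply hgV
  rw [← hg]
  by_cases h : V = W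
  · rw [h]; exact W.toSubring.sub_mem hfW (hr.1.1 a)
  · exact V.toSubring.sub_mem (hf V hV h) (hV.1 a)

include hF

theorem ord_nonpos {f : E} (hf : f ∈ outAlg K W) : ord W f ≤ 0 := by
  by_contra h
  push Not at h
  have hf0 : f ≠ 0 := by
    rintro rfl
    have h1 : ¬ ∃ n : ℤ, W.valuation (0 : E) = W.valuation (unif W) ^ n := by
      rintro ⟨n, hn⟩
      rw [map_zero] at hn
      exact (zpow_pos (val_unif_pos hF hr.1) n).ne hn
    rw [ord, dif_neg h1] at h
    omega
  obtain ⟨a, rfl⟩ := const_of_regular hr hf ((mem_iff_ord hF hr.1 hf0).2 h.le)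
  rw [ord_algebraMap hF hr.1 (by simpa using hf0)] at h
  omega

/-- comparison of functions of the same order -/
theorem exists_const_mul {f g : E} (hf : f ≠ 0) (hg : g ≠ 0) (h : ord W f = ord W g) :
    ∃ a : K, a ≠ 0 ∧ (f - a • g = 0 ∨ ord W f < ord W (f - a • g)) := by
  have hfg : f / g ≠ 0 := div_ne_zero hf hg
  have h1 : ord W (f / g) = 0 := by rw [ord_div hF hr.1 hf hg, h, sub_self]
  obtain ⟨a, e, he, hv⟩ := hr.2 (f / g) ((mem_iff_ord hF hr.1 hfg).2 h1.ge)
  have ha : a ≠ 0 := by
    rintro rfl
    rw [map_zero, sub_zero] at he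
    rw [← he, val_lt_one_iff_ord hF hr.1 hfg, h1] at hv
    exact lt_irrefl _ hv
  refine ⟨a, ha, ?_⟩
  have h2 : f - a • g = e * g := by
    rw [← he, Algebra.smul_def]
    field_simp
  rw [h2]
  by_cases he0 : e = 0
  · left; rw [he0, zero_mul]
  · right
    rw [ord_mul hF hr.1 he0 hg, h]
    have := (val_lt_one_iff_ord hF hr.1 he0).1 hv
    omega

end

/-- The pole orders of the functions regular outside `W`. -/
def poleSet (K : Type u) [Field K] {E : Type u} [Field E] [Algebra K E]
    (W : ValuationSubring E) : Set ℕ :=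
  {n | ∃ f ∈ outAlg K W, f ≠ 0 ∧ ord W f = -(n : ℤ)}

section

variable (hF : IsFunctionField K E) {W : ValuationSubring E} (hr : IsRational K W)
include hF hr

theorem zero_mem_poleSet : 0 ∈ poleSet K W :=
  ⟨1, one_mem _, one_ne_zero, by rw [ord_one hF hr.1]; simp⟩

theorem add_mem_poleSet {m n : ℕ} (hm : m ∈ poleSet K W) (hn : n ∈ poleSet K W) :
    m + n ∈ poleSet K W := by
  obtain ⟨f, hf, hf0, hfo⟩ := hm
  obtain ⟨g, hg, hg0, hgo⟩ := hn
  refine ⟨f * g, mul_mem hf hg, mul_ne_zero hf0 hg0, ?_⟩
  rw [ord_mul hF hr.1 hf0 hg0, hfo, hgo]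
  push_cast; ring

/-- dimension of spaces of functions in terms of pole orders -/
theorem finrank_le_card_poles (m : ℕ) (U : Submodule K E) [FiniteDimensional K U]
    (hU : U ≤ poleSp hF hr.1 m {V | IsPlace K V} (fun _ h => h)) :
    finrank K U ≤ Set.ncard (poleSet K W ∩ Set.Iic m) := by
  induction m generalizing U with
  | zero =>
    have h1 : U ≤ Submodule.span K {(1 : E)} := by
      intro x hx
      obtain ⟨h2, h3⟩ := hU hx
      have h4 : x ∈ W := by
        rcases h2 with rfl | h2
        · exact W.zero_mem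
        · by_cases hx0 : x = 0
          · rw [hx0]; exact W.zero_mem
          · rw [mem_iff_ord hF hr.1 hx0]; simpa using h2
      obtain ⟨a, rfl⟩ := const_of_regular hr (f := x) (fun V hV hne => h3 V hV hne) h4
      rw [Algebra.algebraMap_eq_smul_one]
      exact Submodule.smul_mem _ _ (Submodule.mem_span_singleton_self _)
    have h2 : finrank K U ≤ 1 :=
      (Submodule.finrank_mono h1).trans (by
        rw [finrank_span_singleton (one_ne_zero : (1 : E) ≠ 0)])
    have h3 : poleSet K W ∩ Set.Iic 0 = {0} := by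
      ext n
      simp only [Set.mem_inter_iff, Set.mem_Iic, nonpos_iff_eq_zero, Set.mem_singleton_iff]
      exact ⟨fun h => h.2, fun h => ⟨h ▸ zero_mem_poleSet hF hr, h⟩⟩
    rw [h3, Set.ncard_singleton]
    exact h2
  | succ m ih =>
    set J := poleSp hF hr.1 (m : ℤ) {V | IsPlace K V} (fun _ h => h) with hJ
    have hfinset : (poleSet K W ∩ Set.Iic m).Finite := (Set.finite_Iic m).inter_of_right _
    have hsub : ∀ x ∈ U, x ≠ 0 → ord W x ≠ -((m : ℤ) + 1) → x ∈ J := by
      intro x hx hx0 hne
      obtain ⟨h2, h3⟩ := hU hx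
      refine ⟨Or.inr ?_, h3⟩
      have := h2.resolve_left hx0
      push_cast at this
      omega
    by_cases hm : m + 1 ∈ poleSet K W
    · have h1 : Bd U J 1 := by
        intro C hC hCU hCJ
        rcases eq_or_ne C ⊥ with rfl | hCne
        · simp
        obtain ⟨x, hxC, hx0⟩ := Submodule.exists_mem_ne_zero_of_ne_bot hCne
        have hxo : ord W x = -((m : ℤ) + 1) := by
          by_contra hne
          have h4 : x ∈ C ⊓ J := ⟨hxC, hsub x (hCU hxC) hx0 hne⟩
          rw [hCJ] at h4
          exact hx0 ((Submodule.mem_bot K).1 h4)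
        have h5 : C ≤ Submodule.span K {x} := by
          intro y hyC
          by_cases hy0 : y = 0
          · rw [hy0]; exact Submodule.zero_mem _
          have hyo : ord W y = -((m : ℤ) + 1) := by
            by_contra hne
            have h4 : y ∈ C ⊓ J := ⟨hyC, hsub y (hCU hyC) hy0 hne⟩
            rw [hCJ] at h4
            exact hy0 ((Submodule.mem_bot K).1 h4)
          obtain ⟨a, ha, h6⟩ := exists_const_mul hF hr hy0 hx0 (by rw [hxo, hyo])
          have h7 : y - a • x = 0 := by
            by_contra hne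
            have h8 := h6.resolve_left hne
            have h9 : y - a • x ∈ C := C.sub_mem hyC (C.smul_mem _ hxC)
            have h10 : y - a • x ∈ C ⊓ J := ⟨h9, hsub _ (hCU h9) hne (by rw [← hyo]; exact h8.ne')⟩
            rw [hCJ] at h10
            exact hne ((Submodule.mem_bot K).1 h10)
          rw [sub_eq_zero.1 h7]
          exact Submodule.smul_mem _ _ (Submodule.mem_span_singleton_self _)
        exact (Submodule.finrank_mono h5).trans (by rw [finrank_span_singleton hx0])
      have h2 := h1.finrank_le le_rfl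
      haveI : FiniteDimensional K (U ⊓ J : Submodule K E) :=
        Submodule.finiteDimensional_inf_left U J
      have h3 := ih (U ⊓ J) inf_le_right
      have h4 : poleSet K W ∩ Set.Iic (m + 1) = insert (m + 1) (poleSet K W ∩ Set.Iic m) := by
        ext n
        simp only [Set.mem_inter_iff, Set.mem_Iic, Set.mem_insert_iff]
        constructor
        · rintro ⟨h5, h6⟩
          rcases Nat.lt_or_eq_of_le h6 with h7 | h7
          · exact Or.inr ⟨h5, by omega⟩
          · exact Or.inl h7
        · rintro (rfl | ⟨h5, h6⟩)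
          · exact ⟨hm, le_rfl⟩
          · exact ⟨h5, by omega⟩
      rw [h4, Set.ncard_insert_of_notMem (by simp) hfinset]
      omega
    · have h1 : U ≤ J := by
        intro x hx
        by_cases hx0 : x = 0
        · rw [hx0]; exact J.zero_mem
        · refine hsub x hx hx0 (fun h => hm ⟨x, ?_, hx0, by push_cast; exact h⟩)
          exact fun V hV hne => (hU hx).2 V hV hne
      have h4 : poleSet K W ∩ Set.Iic (m + 1) = poleSet K W ∩ Set.Iic m := by
        ext n
        simp only [Set.mem_inter_iff, Set.mem_Iic]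
        constructor
        · rintro ⟨h5, h6⟩
          refine ⟨h5, ?_⟩
          rcases Nat.lt_or_eq_of_le h6 with h7 | h7
          · omega
          · exact absurd (h7 ▸ h5) hm
        · rintro ⟨h5, h6⟩
          exact ⟨h5, by omega⟩
      rw [h4]
      exact ih U h1

/-- All but finitely many numbers are pole orders. -/
theorem finite_gaps : (poleSet K W)ᶜ.Finite := by
  obtain ⟨c, hc⟩ := riemann hF hr.1
  by_contra hinf
  rw [← Set.Infinite] at hinf
  obtain ⟨t, ht, hcard⟩ := hinf.exists_subset_card_eq (c + 2)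
  set m := t.sup id with hm
  obtain ⟨U, hU1, hU2, hU3⟩ := hc m
  have h1 := finrank_le_card_poles hF hr m U hU2
  have h2 : (poleSet K W ∩ Set.Iic m).ncard + t.card ≤ m + 1 := by
    have h3 : Disjoint (poleSet K W ∩ Set.Iic m) (t : Set ℕ) := by
      rw [Set.disjoint_left]
      intro x hx hxt
      exact ht hxt hx.1
    have h4 : (poleSet K W ∩ Set.Iic m) ∪ (t : Set ℕ) ⊆ Set.Iic m := by
      rintro x (hx | hx)
      · exact hx.2
      · exact Finset.le_sup (f := id) hx
    have h5 := Set.ncard_le_ncard h4 (Set.finite_Iic m)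
    rw [Set.ncard_union_eq h3 ((Set.finite_Iic m).inter_of_right _) t.finite_toSet,
      Set.ncard_coe_finset, Set.ncard_eq_toFinset_card' (Set.Iic m)] at h5
    simpa using h5
  omega

end

end PiCurve
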