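import Mathlib
import Pool.Agent.Pi2.R.OnePoint

/-! The algebra of functions regular outside one rational place: basis adapted to pole orders. -/

universe u

namespace PiCurve

open Polynomial IntermediateField Module

variable {K : Type u} [Field K] {E : Type u} [Field E] [Algebra K E]

open Classical in
/-- a function with pole order exactly `h` at `W`, regular elsewhere; `1` for `h = 0`. -/
noncomputable def poleFun (K : Type u) [Field K] {E : Type u} [Field E] [Algebra K E]
    (W : ValuationSubring E) (h : poleSet K W) : outAlg K W :=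
  if (h : ℕ) = 0 then 1 else ⟨h.2.choose, h.2.choose_spec.1⟩

theorem poleFun_zero {W : ValuationSubring E} (h : poleSet K W) (h0 : (h : ℕ) = 0) :
    poleFun K W h = 1 := by
  rw [poleFun, if_pos h0]

section

variable (hF : IsFunctionField K E) {W : ValuationSubring E} (hr : IsRational K W)
include hF hr

theorem poleFun_spec (h : poleSet K W) :
    (poleFun K W h : E) ≠ 0 ∧ ord W (poleFun K W h : E) = -((h : ℕ) : ℤ) := by
  by_cases h0 : (h : ℕ) = 0
  · rw [poleFun_zero h h0, h0]
    refine ⟨one_ne_zero, ?_⟩
    rw [OneMemClass.coe_one, ord_one hF hr.1]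
    simp
  · rw [poleFun, if_neg h0]
    exact h.2.choose_spec.2

theorem linearIndependent_poleFun :
    LinearIndependent K (fun h : poleSet K W => (poleFun K W h : E)) := by
  classical
  rw [linearIndependent_iff']
  intro s c hc
  by_contra hne
  push Not at hne
  obtain ⟨i0, hi0, hci0⟩ := hne
  have hne' : (s.filter fun i => c i ≠ 0).Nonempty := ⟨i0, by simp [hi0, hci0]⟩
  obtain ⟨i, hi, hmax⟩ := Finset.exists_max_image (s.filter fun i => c i ≠ 0)
    (fun i => (i : ℕ)) hne'
  rw [Finset.mem_filter] at hi
  have hi1 := (poleFun_spec hF hr i).1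
  have hne1 : c i • (poleFun K W i : E) ≠ 0 := smul_ne_zero hi.2 hi1
  have hrest : (∑ j ∈ s.erase i, c j • (poleFun K W j : E)) = 0 ∨
      -((i : ℕ) : ℤ) + 1 ≤ ord W (∑ j ∈ s.erase i, c j • (poleFun K W j : E)) := by
    have key : ∀ t : Finset (poleSet K W), t ⊆ s → i ∉ t →
        (∑ j ∈ t, c j • (poleFun K W j : E)) = 0 ∨
        -((i : ℕ) : ℤ) + 1 ≤ ord W (∑ j ∈ t, c j • (poleFun K W j : E)) := by
      intro t
      induction t using Finset.induction_on with
      | empty => intro _ _; left; simp
      | insert a t ha ih =>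
        intro hts hit
        rw [Finset.sum_insert ha]
        apply le_ord_add hF hr.1
        · by_cases hca : c a = 0
          · left; rw [hca, zero_smul]
          · have h1 := hmax a (Finset.mem_filter.2 ⟨hts (Finset.mem_insert_self _ _), hca⟩)
            have h2 : (a : ℕ) ≠ i := fun h => hit (by
              rw [Finset.mem_insert]; left; exact Subtype.ext h.symm)
            apply le_ord_smul hF hr.1
            right
            rw [(poleFun_spec hF hr a).2]
            omega
        · exact ih (fun x hx => hts (Finset.mem_insert_of_mem hx))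
            (fun h => hit (Finset.mem_insert_of_mem h))
    exact key _ (Finset.erase_subset _ _) (Finset.notMem_erase _ _)
  have hord : ord W (c i • (poleFun K W i : E)) = -((i : ℕ) : ℤ) := by
    rw [Algebra.smul_def, ord_mul hF hr.1 (by simpa using hi.2) hi1,
      ord_algebraMap hF hr.1 hi.2, (poleFun_spec hF hr i).2]
    ring
  obtain ⟨h1, -⟩ := ord_add_eq hF hr.1 hne1
    (g := ∑ j ∈ s.erase i, c j • (poleFun K W j : E)) (by
      rcases hrest with h | h
      · exact Or.inl h
      · right; omega)
  apply h1
  rw [add_comm, Finset.sum_erase_add _ _ hi.1, hc]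

theorem mem_span_poleFun (n : ℕ) : ∀ f : E, f ∈ outAlg K W → (f = 0 ∨ -(n : ℤ) ≤ ord W f) →
    f ∈ Submodule.span K ((fun h : poleSet K W => (poleFun K W h : E)) '' {h | (h : ℕ) ≤ n}) := by
  induction n with
  | zero =>
    intro f hf h
    have hfW : f ∈ W := by
      by_cases hf0 : f = 0
      · rw [hf0]; exact W.zero_mem
      · rw [mem_iff_ord hF hr.1 hf0]
        simpa using h.resolve_left hf0
    obtain ⟨a, rfl⟩ := const_of_regular hr hf hfW
    rw [Algebra.algebraMap_eq_smul_one]
    refine Submodule.smul_mem _ _ (Submodule.subset_span ?_)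
    refine ⟨⟨0, zero_mem_poleSet hF hr⟩, by simp, ?_⟩
    simp only
    rw [poleFun_zero _ rfl]
    rfl
  | succ n ih =>
    intro f hf h
    have hmono : Submodule.span K ((fun h : poleSet K W => (poleFun K W h : E)) ''
        {h | (h : ℕ) ≤ n}) ≤ Submodule.span K ((fun h : poleSet K W => (poleFun K W h : E)) ''
        {h | (h : ℕ) ≤ n + 1}) :=
      Submodule.span_mono (Set.image_mono fun x hx => by
        simp only [Set.mem_ofPred_eq] at hx ⊢; omega)
    by_cases hf0 : f = 0
    · rw [hf0]; exact Submodule.zero_mem _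
    by_cases hfo : ord W f = -((n : ℤ) + 1)
    · have hmem : n + 1 ∈ poleSet K W := ⟨f, hf, hf0, by push_cast; exact hfo⟩
      obtain ⟨h1, h2⟩ := poleFun_spec hF hr (⟨n + 1, hmem⟩ : poleSet K W)
      obtain ⟨a, ha, h3⟩ := exists_const_mul hF hr hf0 h1 (by rw [hfo, h2]; push_cast; ring)
      have h4 : f = (f - a • (poleFun K W ⟨n + 1, hmem⟩ : E)) +
        a • (poleFun K W ⟨n + 1, hmem⟩ : E) := by ring
      rw [h4]
      refine Submodule.add_mem _ (hmono (ih _ ?_ ?_)) (Submodule.smul_mem _ _
        (Submodule.subset_span ⟨⟨n + 1, hmem⟩, by simp, rfl⟩))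
      · exact Subalgebra.sub_mem _ hf (Subalgebra.smul_mem _ (poleFun K W _).2 a)
      · rcases h3 with h3 | h3
        · exact Or.inl h3
        · right; omega
    · refine hmono (ih f hf (Or.inr ?_))
      have := h.resolve_left hf0
      push_cast at this
      omega

/-- the basis of the algebra of functions regular outside `W`. -/
noncomputable def poleBasis : Basis (poleSet K W) K (outAlg K W) :=
  Basis.mk (v := poleFun K W)
    (by
      have h := linearIndependent_poleFun hF hr
      exact LinearIndependent.of_comp (outAlg K W).val.toLinearMap h)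
    (by
      rintro ⟨f, hf⟩ _
      have h1 := mem_span_poleFun hF hr (ord W f).natAbs f hf (Or.inr (by
        have := ord_nonpos hF hr hf
        omega))
      have h2 : Submodule.span K ((fun h : poleSet K W => (poleFun K W h : E)) ''
          {h | (h : ℕ) ≤ (ord W f).natAbs}) ≤
          (Submodule.span K (Set.range (poleFun K W))).map (outAlg K W).val.toLinearMap := by
        rw [Submodule.span_le]
        rintro _ ⟨h, -, rfl⟩
        exact ⟨poleFun K W h, Submodule.subset_span ⟨h, rfl⟩, rfl⟩
      obtain ⟨y, hy, hyf⟩ := h2 h1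
      have h3 : y = ⟨f, hf⟩ := Subtype.ext hyf
      rw [← h3]
      exact hy)

theorem poleBasis_apply (h : poleSet K W) : poleBasis hF hr h = poleFun K W h := by
  rw [poleBasis, Basis.mk_apply]

/-- the coefficients of `f` vanish above the pole order -/
theorem poleBasis_repr_eq_zero {n : ℕ} {f : outAlg K W}
    (hf : (f : E) = 0 ∨ -(n : ℤ) ≤ ord W (f : E)) (h : poleSet K W) (hn : n < (h : ℕ)) :
    (poleBasis hF hr).repr f h = 0 := by
  have h1 := mem_span_poleFun hF hr n f f.2 hf
  have h2 : f ∈ Submodule.span K ((poleBasis hF hr) '' {h | (h : ℕ) ≤ n}) := by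
    have h3 : Submodule.span K ((fun h : poleSet K W => (poleFun K W h : E)) ''
          {h | (h : ℕ) ≤ n}) ≤
          (Submodule.span K ((poleBasis hF hr) '' {h | (h : ℕ) ≤ n})).map
            (outAlg K W).val.toLinearMap := by
      rw [Submodule.span_le]
      rintro _ ⟨h, hh, rfl⟩
      exact ⟨poleFun K W h, Submodule.subset_span ⟨h, hh, poleBasis_apply hF hr h⟩, rfl⟩
    obtain ⟨y, hy, hyf⟩ := h3 h1
    have h4 : y = f := Subtype.ext hyf
    rw [← h4]
    exact hy
  rw [Basis.mem_span_image] at h2
  by_contra hne
  have h3 := h2 (Finsupp.mem_support_iff.2 hne)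
  simp only [Set.mem_ofPred_eq] at h3
  omega

/-- the leading coefficient is nonzero -/
theorem poleBasis_repr_ne_zero {f : outAlg K W} (h : poleSet K W)
    (hf0 : (f : E) ≠ 0) (hf : ord W (f : E) = -((h : ℕ) : ℤ)) :
    (poleBasis hF hr).repr f h ≠ 0 := by
  intro h0
  obtain ⟨h1, h2⟩ := poleFun_spec hF hr h
  obtain ⟨a, ha, h3⟩ := exists_const_mul hF hr hf0 h1 (by rw [hf, h2])
  set g : outAlg K W := f - a • poleFun K W h with hg
  have hgE : (g : E) = (f : E) - a • (poleFun K W h : E) := rfl
  have h4 : (poleBasis hF hr).repr g h = 0 := by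
    rcases Nat.eq_zero_or_pos (h : ℕ) with hz | hpos
    · rcases h3 with h3 | h3
      · have : g = 0 := Subtype.ext (by rw [hgE, h3]; rfl)
        rw [this]; simp
      · have h5 := ord_nonpos hF hr g.2
        rw [hgE] at h5
        rw [hf, hz] at h3
        simp only [CharP.cast_eq_zero, neg_zero] at h3
        omega
    · refine poleBasis_repr_eq_zero hF hr (n := (h : ℕ) - 1) ?_ h (by omega)
      rw [hgE]
      rcases h3 with h3 | h3
      · exact Or.inl h3
      · right; omega
  have h5 : (poleBasis hF hr).repr f h = (poleBasis hF hr).repr g h + a := by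
    have h6 : f = g + a • poleBasis hF hr h := by
      rw [hg, poleBasis_apply, sub_add_cancel]
    conv_lhs => rw [h6]
    rw [map_add, map_smul, Basis.repr_self]
    simp
  rw [h4, zero_add, h0] at h5
  exact ha h5.symm

end

end PiCurve
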