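import Mathlib
import Pool.Agent.Pi2.R.OnePoint2

/-! The algebra of functions regular outside one rational place: it is the integral closure of
`K[u]`, a Dedekind domain with fraction field `E`. -/

universe u

namespace PiCurve

open Polynomial IntermediateField IntermediateField.algebraAdjoinAdjoin Module

variable {K : Type u} [Field K] {E : Type u} [Field E] [Algebra K E]

/-- elements integral over a subring of a valuation ring belong to it -/
theorem mem_of_integral_adjoin {V : ValuationSubring E} (hV : ∀ a : K, algebraMap K E a ∈ V)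
    {u f : E} (hu : u ∈ V) (hf : IsIntegral (Algebra.adjoin K {u}) f) : f ∈ V := by
  have h4 : Algebra.adjoin K {u} ≤ (⟨V.toSubring.toSubsemiring, hV⟩ : Subalgebra K E) := by
    rw [Algebra.adjoin_le_iff]
    rintro _ rfl
    exact hu
  obtain ⟨p, hp, hpe⟩ := hf
  let j : Algebra.adjoin K {u} →+* V :=
    (algebraMap (Algebra.adjoin K {u}) E).codRestrict V.toSubring (fun x => h4 x.2)
  have h5 : IsIntegral V f := by
    refine ⟨p.map j, hp.map j, ?_⟩
    rw [eval₂_map]
    exact hpe
  obtain ⟨x, hx⟩ := IsIntegrallyClosed.algebraMap_eq_of_integral (R := V) (K := E) h5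
  rw [← hx]
  exact x.2

/-- the algebra is the integral closure of `K[u]` for every nonconstant element `u` -/
theorem mem_outAlg_iff_integral {W : ValuationSubring E} {u : E} (hu : u ∈ outAlg K W) (huW : u ∉ W) {f : E} :
    f ∈ outAlg K W ↔ IsIntegral (Algebra.adjoin K {u}) f := by
  constructor
  · intro hf
    by_contra hcon
    have h1 : f ∉ (integralClosure (Algebra.adjoin K {u}) E).toSubring := hcon
    obtain ⟨V, hV1, hV2⟩ := Subring.exists_le_valuationSubring_of_isIntegrallyClosedIn h1
    have h2 : ∀ x ∈ Algebra.adjoin K {u}, x ∈ V := by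
      intro x hx
      apply hV1
      exact isIntegral_algebraMap (R := Algebra.adjoin K {u}) (x := ⟨x, hx⟩)
    have hVp : IsPlace K V := by
      refine ⟨fun a => h2 _ (Subalgebra.algebraMap_mem _ a), ?_⟩
      rintro rfl
      exact hV2 (ValuationSubring.mem_top _)
    have hne : V ≠ W := by
      rintro rfl
      exact huW (h2 u (Algebra.subset_adjoin rfl))
    exact hV2 (hf V hVp hne)
  · intro hf V hV hne
    exact mem_of_integral_adjoin hV.1 (hu V hV hne) hf

section

variable (hF : IsFunctionField K E) {W : ValuationSubring E} (hr : IsRational K W)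
include hF hr

theorem exists_nonconstant : ∃ u ∈ outAlg K W, u ∉ W := by
  have h := finite_gaps hF hr
  have h1 : (poleSet K W \ {0}).Nonempty := by
    by_contra hne
    rw [Set.not_nonempty_iff_eq_empty] at hne
    have h2 : (Set.univ : Set ℕ) ⊆ (poleSet K W)ᶜ ∪ {0} := by
      intro x _
      by_cases hx : x ∈ poleSet K W
      · right
        by_contra hx0
        have : x ∈ poleSet K W \ {0} := ⟨hx, hx0⟩
        rw [hne] at this
        exact this
      · exact Or.inl hx
    exact Set.infinite_univ ((h.union (Set.finite_singleton 0)).subset h2)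
  obtain ⟨n, ⟨f, hf, hf0, hfo⟩, hn0⟩ := h1
  refine ⟨f, hf, ?_⟩
  rw [mem_iff_ord hF hr.1 hf0, hfo]
  have : n ≠ 0 := hn0
  omega

omit hF in
theorem transcendental_of_notMem {u : E} (hu : u ∉ W) : Transcendental K u := fun h =>
  hu (mem_of_isAlgebraic hr.1.1 h)

/-- every element of `E` is a quotient of two elements of the algebra -/
theorem exists_fraction_outAlg (x : E) : ∃ a ∈ outAlg K W, ∃ b ∈ outAlg K W, b ≠ 0 ∧ b * x = a := by
  obtain ⟨u, hu, huW⟩ := exists_nonconstant hF hr
  have hut := transcendental_of_notMem hr huW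
  have halg := isAlgebraic_over_adjoin hF hut
  have halg' : Algebra.IsAlgebraic (Algebra.adjoin K {u}) E :=
    (IsFractionRing.comap_isAlgebraic_iff (A := Algebra.adjoin K {u})
      (K := IntermediateField.adjoin K {u}) (C := E)).2 halg
  obtain ⟨y, hy0, hy⟩ := (halg'.isAlgebraic x).exists_integral_multiple
  refine ⟨y • x, (mem_outAlg_iff_integral hu huW).2 hy, y,
    (mem_outAlg_iff_integral hu huW).2 (isIntegral_algebraMap (x := y)), ?_, rfl⟩
  intro h
  exact hy0 (Subtype.ext h)

theorem isFractionRing_outAlg : IsFractionRing (outAlg K W) E := by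
  refine IsFractionRing.of_field _ _ fun x => ?_
  obtain ⟨a, ha, b, hb, hb0, h⟩ := exists_fraction_outAlg hF hr x
  refine ⟨⟨a, ha⟩, ⟨b, hb⟩, ?_⟩
  change x = a / b
  rw [← h]
  field_simp

/-- quotients by nonzero elements are finite dimensional -/
theorem finiteDimensional_quotient {f : outAlg K W} (hf : f ≠ 0) :
    FiniteDimensional K (outAlg K W ⧸ Ideal.span {f}) := by
  have hfE : (f : E) ≠ 0 := fun h => hf (Subtype.ext h)
  by_cases hconst : IsAlgebraic K (f : E)
  · -- then f is a unit
    have h1 : (f : E)⁻¹ ∈ outAlg K W := by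
      intro V hV _
      exact mem_of_isAlgebraic hV.1 hconst.inv
    have h2 : Ideal.span {f} = ⊤ := by
      rw [Ideal.eq_top_iff_one, Ideal.mem_span_singleton]
      exact ⟨⟨(f : E)⁻¹, h1⟩, Subtype.ext (mul_inv_cancel₀ hfE).symm⟩
    rw [h2]
    haveI : Subsingleton (outAlg K W ⧸ (⊤ : Ideal (outAlg K W))) :=
      Ideal.Quotient.subsingleton_iff.2 rfl
    infer_instance
  · set M : Submodule K E := Subalgebra.toSubmodule (outAlg K W) with hM
    have hbd := bd_mul hF M hconst (fun x hx => (outAlg K W).mul_mem f.2 hx)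
    set n := finrank (IntermediateField.adjoin K {(f : E)}) E with hn
    have hrank : Module.rank K (outAlg K W ⧸ Ideal.span {f}) ≤ n := by
      refine rank_le fun s hs => ?_
      choose w hw using fun x : (outAlg K W ⧸ Ideal.span {f}) =>
        Ideal.Quotient.mk_surjective (I := Ideal.span {f}) x
      have hind : ∀ c : s → K, (∃ m ∈ M, ∑ i, c i • (w i : E) = (f : E) * m) → ∀ i, c i = 0 := by
        rintro c ⟨m, hm, h⟩
        have h1 : ∑ i, c i • (i : outAlg K W ⧸ Ideal.span {f}) = 0 := by
          have h2 : ∑ i, c i • (i : outAlg K W ⧸ Ideal.span {f}) =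
              Ideal.Quotient.mk (Ideal.span {f}) (∑ i, c i • w i) := by
            rw [map_sum]
            refine Finset.sum_congr rfl fun i _ => ?_
            rw [← Ideal.Quotient.mkₐ_eq_mk K, map_smul, Ideal.Quotient.mkₐ_eq_mk, hw]
          rw [h2, Ideal.Quotient.eq_zero_iff_mem, Ideal.mem_span_singleton]
          refine ⟨⟨m, hm⟩, Subtype.ext ?_⟩
          change ((outAlg K W).val.toLinearMap (∑ i, c i • w i) : E) = _
          rw [map_sum]
          exact h
        exact Fintype.linearIndependent_iff.1 hs c h1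
      have hli : LinearIndependent K (fun i : s => (w i : E)) := by
        rw [Fintype.linearIndependent_iff]
        intro c hc
        exact hind c ⟨0, M.zero_mem, by rw [hc, mul_zero]⟩
      have h3 := hbd (Submodule.span K (Set.range fun i : s => (w i : E)))
        (FiniteDimensional.span_of_finite K (Set.finite_range _)) (by
          rw [Submodule.span_le]
          rintro _ ⟨i, rfl⟩
          exact (w i).2) (by
          rw [eq_bot_iff]
          rintro x ⟨hx, hx'⟩
          rw [SetLike.mem_coe, Submodule.mem_span_range_iff_exists_fun] at hx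
          obtain ⟨c, rfl⟩ := hx
          obtain ⟨m, hm, h⟩ := mem_map_mulBy.1 hx'
          have h4 := hind c ⟨m, hm, h⟩
          rw [Submodule.mem_bot]
          exact Finset.sum_eq_zero fun i _ => by rw [h4 i, zero_smul])
      rw [finrank_span_eq_card hli] at h3
      simpa using h3
    exact Module.rank_lt_aleph0_iff.1 (hrank.trans_lt Cardinal.natCast_lt_aleph0)

theorem isNoetherianRing_outAlg : IsNoetherianRing (outAlg K W) := by
  rw [isNoetherianRing_iff_ideal_fg]
  intro I
  by_cases hI : I = ⊥
  · rw [hI]; exact Submodule.fg_bot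
  obtain ⟨f, hfI, hf0⟩ := Submodule.exists_mem_ne_zero_of_ne_bot hI
  haveI := finiteDimensional_quotient hF hr hf0
  haveI : IsNoetherian (outAlg K W) (outAlg K W ⧸ Ideal.span {f}) :=
    isNoetherian_of_tower K inferInstance
  refine Submodule.fg_of_fg_map_of_fg_inf_ker (Submodule.mkQ (Ideal.span {f}))
    (IsNoetherian.noetherian _) ?_
  rw [Submodule.ker_mkQ, inf_eq_right.2 ((Ideal.span_singleton_le_iff_mem I).2 hfI)]
  exact ⟨{f}, by simp [Ideal.span]⟩

theorem maximal_of_prime_outAlg (p : Ideal (outAlg K W)) (hp0 : p ≠ ⊥) (hp : p.IsPrime) :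
    p.IsMaximal ∧ FiniteDimensional K (outAlg K W ⧸ p) := by
  obtain ⟨f, hfI, hf0⟩ := Submodule.exists_mem_ne_zero_of_ne_bot hp0
  haveI := finiteDimensional_quotient hF hr hf0
  have hle : Ideal.span {f} ≤ p := (Ideal.span_singleton_le_iff_mem p).2 hfI
  haveI : FiniteDimensional K (outAlg K W ⧸ p) :=
    Module.Finite.of_surjective (Ideal.Quotient.factorₐ K hle).toLinearMap
      (Ideal.Quotient.factor_surjective hle)
  haveI : IsArtinianRing (outAlg K W ⧸ p) := isArtinian_of_tower K inferInstance
  exact ⟨Ideal.Quotient.maximal_of_isField _ (IsArtinianRing.isField_of_isDomain _), inferInstance⟩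

theorem isIntegrallyClosed_outAlg : IsIntegrallyClosed (outAlg K W) := by
  haveI := isFractionRing_outAlg hF hr
  rw [isIntegrallyClosed_iff E]
  intro x hx
  refine ⟨⟨x, ?_⟩, rfl⟩
  intro V hV hne
  obtain ⟨p, hp, hpe⟩ := hx
  let j : outAlg K W →+* V :=
    (algebraMap (outAlg K W) E).codRestrict V.toSubring (fun x => x.2 V hV hne)
  have h5 : IsIntegral V x := by
    refine ⟨p.map j, hp.map j, ?_⟩
    rw [eval₂_map]
    exact hpe
  obtain ⟨y, hy⟩ := IsIntegrallyClosed.algebraMap_eq_of_integral (R := V) (K := E) h5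
  rw [← hy]
  exact y.2

theorem isDedekindDomain_outAlg : IsDedekindDomain (outAlg K W) := by
  haveI := isNoetherianRing_outAlg hF hr
  haveI := isIntegrallyClosed_outAlg hF hr
  haveI : Ring.DimensionLEOne (outAlg K W) :=
    ⟨fun {p} hp0 hp => (maximal_of_prime_outAlg hF hr p hp0 hp).1⟩
  exact { }

end

end PiCurve
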