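import Mathlib
import Pool.Agent.Pi2.R.OnePoint3

/-! Places different from `W` correspond to the maximal ideals of the algebra of functions
regular outside `W`. -/

universe u

namespace PiCurve

open Polynomial IntermediateField Module IsDedekindDomain

variable {K : Type u} [Field K] {E : Type u} [Field E] [Algebra K E]

/-- the centre of a place -/
def centre (K : Type u) [Field K] {E : Type u} [Field E] [Algebra K E] (W V : ValuationSubring E)
    (hV : ∀ f ∈ outAlg K W, f ∈ V) : Ideal (outAlg K W) where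
  carrier := {f | V.valuation (f : E) < 1}
  zero_mem' := by
    change V.valuation (0 : E) < 1
    rw [map_zero]; exact zero_lt_one
  add_mem' := fun ha hb => V.valuation.map_add_lt ha hb
  smul_mem' := fun c x hx => by
    change V.valuation ((c : E) * (x : E)) < 1
    rw [map_mul]
    exact lt_of_le_of_lt (mul_le_of_le_one_left' ((V.valuation_le_one_iff _).2 (hV c c.2))) hx

theorem mem_centre {W V : ValuationSubring E} {hV : ∀ f ∈ outAlg K W, f ∈ V} {f : outAlg K W} :
    f ∈ centre K W V hV ↔ V.valuation (f : E) < 1 := Iff.rfl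

theorem centre_isPrime {W V : ValuationSubring E} (hV : ∀ f ∈ outAlg K W, f ∈ V) :
    (centre K W V hV).IsPrime := by
  constructor
  · rw [Ne, Ideal.eq_top_iff_one, mem_centre]
    simp
  · intro x y hxy
    rw [mem_centre] at hxy ⊢
    rw [mem_centre]
    by_contra hcon
    push Not at hcon
    have h1 : V.valuation (x : E) = 1 :=
      le_antisymm ((V.valuation_le_one_iff _).2 (hV x x.2)) hcon.1
    have h2 : V.valuation (y : E) = 1 :=
      le_antisymm ((V.valuation_le_one_iff _).2 (hV y y.2)) hcon.2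
    rw [MulMemClass.coe_mul, map_mul, h1, h2, one_mul] at hxy
    exact lt_irrefl _ hxy

section

variable (hF : IsFunctionField K E) {W : ValuationSubring E} (hr : IsRational K W)
include hF hr

theorem centre_ne_bot {V : ValuationSubring E} (hVp : IsPlace K V)
    (hV : ∀ f ∈ outAlg K W, f ∈ V) : centre K W V hV ≠ ⊥ := by
  intro h
  apply hVp.2
  rw [eq_top_iff]
  intro x _
  obtain ⟨a, ha, b, hb, hb0, hab⟩ := exists_fraction_outAlg hF hr x
  have h1 : V.valuation b = 1 := by
    refine le_antisymm ((V.valuation_le_one_iff _).2 (hV b hb)) ?_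
    by_contra hcon
    push Not at hcon
    have h2 : (⟨b, hb⟩ : outAlg K W) ∈ centre K W V hV := hcon
    rw [h, Ideal.mem_bot] at h2
    exact hb0 (congrArg Subtype.val h2)
  rw [← V.valuation_le_one_iff]
  have h2 : V.valuation (b * x) ≤ 1 := by
    rw [hab]; exact (V.valuation_le_one_iff _).2 (hV a ha)
  rwa [map_mul, h1, one_mul] at h2

/-- the height one prime of a place different from `W` -/
def centreSpec {V : ValuationSubring E} (hVp : IsPlace K V) (hne : V ≠ W) :
    HeightOneSpectrum (outAlg K W) :=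
  ⟨centre K W V (fun _ hf => hf V hVp hne), centre_isPrime _,
    centre_ne_bot hF hr hVp (fun _ hf => hf V hVp hne)⟩

/-- `V` is the localisation of the algebra at its centre. -/
theorem mem_iff_exists_fraction {V : ValuationSubring E} (hVp : IsPlace K V) (hne : V ≠ W)
    (x : E) : x ∈ V ↔ ∃ a ∈ outAlg K W, ∃ b ∈ outAlg K W, V.valuation b = 1 ∧ b * x = a := by
  haveI := isFractionRing_outAlg hF hr
  haveI := isDedekindDomain_outAlg hF hr
  have hV : ∀ f ∈ outAlg K W, f ∈ V := fun _ hf => hf V hVp hne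
  set p := centreSpec hF hr hVp hne with hp
  have hle : ∀ x : E, p.valuation E x ≤ 1 → ∃ a ∈ outAlg K W, ∃ b ∈ outAlg K W,
      V.valuation b = 1 ∧ b * x = a := by
    intro x hx
    obtain ⟨n, d, h⟩ := p.exists_primeCompl_mul_eq_of_integer x hx
    refine ⟨n, n.2, (d : outAlg K W), (d : outAlg K W).2, ?_, ?_⟩
    · have h1 : (d : outAlg K W) ∉ centre K W V hV := d.2
      rw [mem_centre, not_lt] at h1
      exact le_antisymm ((V.valuation_le_one_iff _).2 (hV _ (d : outAlg K W).2)) h1
    · rw [mul_comm]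
      exact h
  have hsub : ∀ x : E, (∃ a ∈ outAlg K W, ∃ b ∈ outAlg K W, V.valuation b = 1 ∧ b * x = a) →
      x ∈ V := by
    rintro x ⟨a, ha, b, hb, hvb, hab⟩
    rw [← V.valuation_le_one_iff]
    have h2 : V.valuation (b * x) ≤ 1 := by
      rw [hab]; exact (V.valuation_le_one_iff _).2 (hV a ha)
    rwa [map_mul, hvb, one_mul] at h2
  refine ⟨fun hx => ?_, hsub x⟩
  by_contra hcon
  have h1 : 1 < p.valuation E x := by
    by_contra h
    exact hcon (hle x (not_lt.1 h))
  -- then `x⁻¹` is a nonunit of the localisation, so `x⁻¹` lies in the maximal ideal of `V`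
  have hx0 : x ≠ 0 := by
    rintro rfl
    rw [map_zero] at h1
    exact absurd h1 (not_lt.2 zero_le)
  have h2 : p.valuation E x⁻¹ < 1 := by
    rw [map_inv₀]
    exact inv_lt_one_of_one_lt₀ h1
  obtain ⟨n, d, h⟩ := p.exists_primeCompl_mul_eq_of_integer x⁻¹ h2.le
  have h3 : p.valuation E ((n : outAlg K W) : E) < 1 := by
    have h4 : ((n : outAlg K W) : E) = x⁻¹ * ((d : outAlg K W) : E) := h.symm
    rw [h4, map_mul]
    exact mul_lt_one_of_lt_of_le h2 (p.valuation_le_one (K := E) (d : outAlg K W))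
  have h4 : n ∈ p.asIdeal := (p.valuation_lt_one_iff_mem (K := E) n).1 h3
  have h5 : V.valuation ((n : outAlg K W) : E) < 1 := h4
  have h6 : V.valuation ((d : outAlg K W) : E) = 1 := by
    have h1 : (d : outAlg K W) ∉ centre K W V hV := d.2
    rw [mem_centre, not_lt] at h1
    exact le_antisymm ((V.valuation_le_one_iff _).2 (hV _ (d : outAlg K W).2)) h1
  have h7 : x⁻¹ * ((d : outAlg K W) : E) = ((n : outAlg K W) : E) := h
  rw [← h7, map_mul, h6, mul_one, map_inv₀] at h5
  have h8 : V.valuation x ≤ 1 := (V.valuation_le_one_iff _).2 hx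
  have h9 : V.valuation x ≠ 0 := (Valuation.ne_zero_iff _).2 hx0
  exact absurd h5 (not_lt.2 ((one_le_inv₀ (zero_lt_iff.2 h9)).2 h8))

/-- places with the same centre are equal -/
theorem eq_of_centre_eq {V V' : ValuationSubring E} (hVp : IsPlace K V) (hne : V ≠ W)
    (hVp' : IsPlace K V') (hne' : V' ≠ W)
    (h : ∀ f ∈ outAlg K W, V.valuation f < 1 ↔ V'.valuation f < 1) : V = V' := by
  have key : ∀ f ∈ outAlg K W, V.valuation f = 1 ↔ V'.valuation f = 1 := by
    intro f hf
    have h1 := (V.valuation_le_one_iff f).2 (hf V hVp hne)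
    have h2 := (V'.valuation_le_one_iff f).2 (hf V' hVp' hne')
    have h3 := h f hf
    constructor
    · intro h4
      by_contra h5
      exact ((h3.2 (lt_of_le_of_ne h2 h5)).ne h4)
    · intro h4
      by_contra h5
      exact ((h3.1 (lt_of_le_of_ne h1 h5)).ne h4)
  ext x
  rw [mem_iff_exists_fraction hF hr hVp hne, mem_iff_exists_fraction hF hr hVp' hne']
  constructor
  · rintro ⟨a, ha, b, hb, h1, h2⟩
    exact ⟨a, ha, b, hb, (key b hb).1 h1, h2⟩
  · rintro ⟨a, ha, b, hb, h1, h2⟩
    exact ⟨a, ha, b, hb, (key b hb).2 h1, h2⟩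

/-- every nonzero prime is the centre of a place -/
theorem exists_place_of_prime (p : Ideal (outAlg K W)) (hp : p.IsPrime) (hp0 : p ≠ ⊥) :
    ∃ V : ValuationSubring E, IsPlace K V ∧ V ≠ W ∧
      ∀ f : outAlg K W, V.valuation (f : E) < 1 ↔ f ∈ p := by
  haveI := isFractionRing_outAlg hF hr
  haveI := isDedekindDomain_outAlg hF hr
  let q : HeightOneSpectrum (outAlg K W) := ⟨p, hp, hp0⟩
  set V := (q.valuation E).valuationSubring with hV
  have hmem : ∀ x : E, x ∈ V ↔ q.valuation E x ≤ 1 := fun x => Iff.rfl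
  have hout : ∀ f ∈ outAlg K W, f ∈ V := fun f hf =>
    (hmem f).2 (q.valuation_le_one (K := E) ⟨f, hf⟩)
  have hval : ∀ x : E, V.valuation x < 1 ↔ q.valuation E x < 1 := by
    intro x
    have h := (q.valuation E).isEquiv_valuation_valuationSubring
    exact (h.lt_one_iff_lt_one).symm
  refine ⟨V, ⟨fun a => hout _ (Subalgebra.algebraMap_mem _ a), ?_⟩, ?_, ?_⟩
  · intro htop
    obtain ⟨π, hπ⟩ := q.valuation_exists_uniformizer E
    have h1 : π⁻¹ ∈ V := by rw [htop]; exact ValuationSubring.mem_top _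
    rw [hmem, map_inv₀, hπ] at h1
    exact absurd h1 (by decide)
  · rintro heq
    obtain ⟨u, hu, huW⟩ := exists_nonconstant hF hr
    exact huW (heq ▸ hout u hu)
  · intro f
    rw [hval]
    exact q.valuation_lt_one_iff_mem (K := E) f

end

end PiCurve
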