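import Mathlib
import Pool.Agent.Pi2.R.OnePoint4
import Pool.Agent.Pi2.Gam

/-! The algebra of functions regular outside a rational place is a Gamma-algebra. -/

universe u

namespace PiCurve

open Module

variable {K : Type u} [Field K] {E : Type u} [Field E] [Algebra K E]

section

variable (hF : IsFunctionField K E) {W : ValuationSubring E} (hr : IsRational K W)

/-- the semigroup of pole orders -/
def poleMonoid (hF : IsFunctionField K E) {W : ValuationSubring E} (hr : IsRational K W) :
    AddSubmonoid ℕ where
  carrier := poleSet K W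
  zero_mem' := zero_mem_poleSet hF hr
  add_mem' := fun h1 h2 => add_mem_poleSet hF hr h1 h2

theorem mem_poleMonoid {n : ℕ} :
    n ∈ poleMonoid hF hr ↔ ∃ f ∈ outAlg K W, f ≠ 0 ∧ ord W f = -(n : ℤ) := Iff.rfl

/-- leading terms of elements of given pole order -/
theorem lead_of_ord {f : outAlg K W} (c : poleMonoid hF hr) (hf0 : (f : E) ≠ 0)
    (hf : ord W (f : E) = -((c : ℕ) : ℤ)) :
    Lead K (G := poleMonoid hF hr) (fun c => poleFun K W c) f c := by
  obtain ⟨h1, h2⟩ := poleFun_spec hF hr c
  obtain ⟨a, ha, h3⟩ := exists_const_mul hF hr hf0 h1 (by rw [hf, h2])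
  refine ⟨Units.mk0 a ha, ?_⟩
  rw [Units.val_mk0]
  set g : outAlg K W := f - a • poleFun K W c with hg
  have hgE : (g : E) = (f : E) - a • (poleFun K W c : E) := rfl
  rw [← hgE] at h3
  rcases Nat.eq_zero_or_pos (c : ℕ) with hz | hpos
  · have hg0 : g = 0 := by
      apply Subtype.ext
      rcases h3 with h3 | h3
      · exact h3
      · have h5 := ord_nonpos hF hr g.2
        rw [hf, hz] at h3
        simp only [CharP.cast_eq_zero, neg_zero] at h3
        omega
    rw [hg0]
    exact Submodule.zero_mem _
  · have h4 := mem_span_poleFun hF hr ((c : ℕ) - 1) g g.2 (by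
      rcases h3 with h3 | h3
      · exact Or.inl h3
      · right; omega)
    have h5 : Submodule.span K ((fun h : poleSet K W => (poleFun K W h : E)) ''
          {h | (h : ℕ) ≤ (c : ℕ) - 1}) ≤
          (ltSpan (R := K) (G := (poleMonoid hF hr : Set ℕ)) (fun c => poleFun K W c) c).map
            (outAlg K W).val.toLinearMap := by
      rw [Submodule.span_le]
      rintro _ ⟨h, hh, rfl⟩
      refine ⟨poleFun K W h, Submodule.subset_span ⟨h, ?_, rfl⟩, rfl⟩
      have : (h : ℕ) ≤ (c : ℕ) - 1 := hh
      change (h : ℕ) < c
      omega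
    obtain ⟨y, hy, hyf⟩ := h5 h4
    have h6 : y = g := Subtype.ext hyf
    rw [← h6]
    exact hy

/-- the basis, indexed by the monoid -/
noncomputable def poleBasisM : Basis (poleMonoid hF hr) K (outAlg K W) := poleBasis hF hr

theorem poleBasisM_apply (c : poleMonoid hF hr) : poleBasisM hF hr c = poleFun K W c :=
  poleBasis_apply hF hr c

/-- The Gamma-algebra of functions regular outside `W`. -/
noncomputable def gamOut : GamAlg (poleMonoid hF hr) K (outAlg K W) where
  B := poleBasisM hF hr
  one := by
    rw [poleBasisM_apply]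
    exact poleFun_zero _ rfl
  mul := by
    intro c d
    have h1 := poleFun_spec hF hr c
    have h2 := poleFun_spec hF hr d
    have hB : (poleBasisM hF hr : poleMonoid hF hr → outAlg K W) = fun c => poleFun K W c :=
      funext fun c => poleBasisM_apply hF hr c
    rw [hB]
    refine lead_of_ord hF hr (c + d) (mul_ne_zero h1.1 h2.1) ?_
    change ord W ((poleFun K W c : E) * (poleFun K W d : E)) = _
    rw [ord_mul hF hr.1 h1.1 h2.1, h1.2, h2.2]
    push_cast
    ring
  cofin := finite_gaps hF hr

end

end PiCurve
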